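import Pool.Agent.GrowthOR.Data

set_option autoImplicit false

/-!
# Generating functions over all stacks
-/

namespace Pool.Agent.GrowthOR

open Finset

variable {z : ℝ}

theorem one_sub_t (z : ℝ) : 1 - (z + 2 * z ^ 2) = (1 - 2 * z) * (1 + z) := by ring

theorem t_lt_one (h0 : 0 < z) (h1 : z < 1 / 2) : z + 2 * z ^ 2 < 1 := by
  have : 0 < (1 - 2 * z) * (1 + z) := mul_pos (by linarith) (by linarith)
  linarith [one_sub_t z]

theorem zero_of_summable : Summable (fun _ : Stk => (0 : ℝ)) := summable_zero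

/-- sum over children with the weight `z ^ mu` -/
theorem sum_children_z (Ψ : Rd → ℝ) (s : Stk) :
    ∑ i : Fin 3, z ^ (rd (.push s i)).mu * Ψ (rd (.push s i)) = z ^ (rd s).mu *
      (z * Ψ ⟨(rd s).mu + 1, 1, (rd s).w, (rd s).M, max (rd s).e (rd s).n⟩ +
      z ^ 2 * Ψ ⟨(rd s).mu + 2, (rd s).n + 2, (rd s).w, max (rd s).M ((rd s).n + 2), (rd s).e⟩ +
      z ^ 2 * Ψ ⟨(rd s).mu + 2, 2, (rd s).w + (rd s).n, (rd s).M, (rd s).e⟩) := by
  have := sum_children (fun d => z ^ d.mu * Ψ d) s
  simp only at this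
  rw [this]
  ring

theorem summable_Z (h0 : 0 < z) (h1 : z < 1 / 2) : Summable fun s : Stk => z ^ (rd s).mu := by
  refine (contraction (fun s => z ^ (rd s).mu) (fun _ => 0) (z + 2 * z ^ 2) (by positivity)
    (t_lt_one h0 h1) (fun s => by positivity) (fun _ => le_rfl) summable_zero ?_).1
  intro s
  have := sum_children_z (z := z) (fun _ => 1) s
  simp only [mul_one] at this
  rw [this]
  apply le_of_eq
  ring

theorem Z_eq (h0 : 0 < z) (h1 : z < 1 / 2) :
    (1 - 2 * z) * ∑' s : Stk, z ^ (rd s).mu = 2 * z := by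
  have hs := summable_Z h0 h1
  have h2 := tsum_stk _ hs
  have h3 := sum_bots (fun d => z ^ d.mu)
  simp only at h3
  rw [h3] at h2
  have h4 : ∀ s : Stk, ∑ i : Fin 3, z ^ (rd (.push s i)).mu = (z + 2 * z ^ 2) * z ^ (rd s).mu := by
    intro s
    have := sum_children_z (z := z) (fun _ => 1) s
    simp only [mul_one] at this
    rw [this]; ring
  simp only [h4] at h2
  rw [tsum_mul_left] at h2
  have h5 : (1 + z) ≠ 0 := by positivity
  have h6 : (1 + z) * ((1 - 2 * z) * ∑' s : Stk, z ^ (rd s).mu) = (1 + z) * (2 * z) := by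
    have h7 : (1 - (z + 2 * z ^ 2)) * ∑' s : Stk, z ^ (rd s).mu = 2 * z ^ 1 + 2 * z ^ 2 := by
      linarith
    rw [one_sub_t] at h7
    linear_combination h7
  exact mul_left_cancel₀ h5 h6

theorem summable_N (h0 : 0 < z) (h1 : z < 1 / 2) :
    Summable fun s : Stk => z ^ (rd s).mu * ((rd s).n : ℝ) := by
  refine (contraction (fun s => z ^ (rd s).mu * ((rd s).n : ℝ))
    (fun s => (z + 4 * z ^ 2) * z ^ (rd s).mu) (z ^ 2) (by positivity)
    (by nlinarith) (fun s => by positivity) (fun s => by positivity)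
    ((summable_Z h0 h1).mul_left _) ?_).1
  intro s
  have := sum_children_z (z := z) (fun d => (d.n : ℝ)) s
  rw [this]
  apply le_of_eq
  push_cast
  ring

theorem N_eq (h0 : 0 < z) (h1 : z < 1 / 2) :
    (1 - z ^ 2) * ∑' s : Stk, z ^ (rd s).mu * ((rd s).n : ℝ) =
      2 * z + 4 * z ^ 2 + (z + 4 * z ^ 2) * ∑' s : Stk, z ^ (rd s).mu := by
  have hs := summable_N h0 h1
  have h2 := tsum_stk _ hs
  have h3 := sum_bots (fun d => z ^ d.mu * (d.n : ℝ))
  simp only at h3
  rw [h3] at h2
  have h4 : ∀ s : Stk, ∑ i : Fin 3, z ^ (rd (.push s i)).mu * ((rd (.push s i)).n : ℝ) =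
      z ^ 2 * (z ^ (rd s).mu * ((rd s).n : ℝ)) + (z + 4 * z ^ 2) * z ^ (rd s).mu := by
    intro s
    have := sum_children_z (z := z) (fun d => (d.n : ℝ)) s
    rw [this]; push_cast; ring
  simp only [h4] at h2
  rw [Summable.tsum_add (hs.mul_left _) ((summable_Z h0 h1).mul_left _), tsum_mul_left,
    tsum_mul_left] at h2
  push_cast at h2
  linarith

theorem summable_T (h0 : 0 < z) (h1 : z < 1 / 2) :
    Summable fun s : Stk => z ^ (rd s).mu * ((rd s).w : ℝ) := by
  refine (contraction (fun s => z ^ (rd s).mu * ((rd s).w : ℝ))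
    (fun s => z ^ 2 * (z ^ (rd s).mu * ((rd s).n : ℝ))) (z + 2 * z ^ 2) (by positivity)
    (t_lt_one h0 h1) (fun s => by positivity) (fun s => by positivity)
    ((summable_N h0 h1).mul_left _) ?_).1
  intro s
  have := sum_children_z (z := z) (fun d => (d.w : ℝ)) s
  rw [this]
  apply le_of_eq
  push_cast
  ring

theorem T_eq' (h0 : 0 < z) (h1 : z < 1 / 2) :
    (1 - (z + 2 * z ^ 2)) * ∑' s : Stk, z ^ (rd s).mu * ((rd s).w : ℝ) =
      z ^ 2 * ∑' s : Stk, z ^ (rd s).mu * ((rd s).n : ℝ) := by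
  have hs := summable_T h0 h1
  have h2 := tsum_stk _ hs
  have h3 := sum_bots (fun d => z ^ d.mu * (d.w : ℝ))
  simp only at h3
  rw [h3] at h2
  have h4 : ∀ s : Stk, ∑ i : Fin 3, z ^ (rd (.push s i)).mu * ((rd (.push s i)).w : ℝ) =
      (z + 2 * z ^ 2) * (z ^ (rd s).mu * ((rd s).w : ℝ)) +
        z ^ 2 * (z ^ (rd s).mu * ((rd s).n : ℝ)) := by
    intro s
    have := sum_children_z (z := z) (fun d => (d.w : ℝ)) s
    rw [this]; push_cast; ring
  simp only [h4] at h2
  rw [Summable.tsum_add (hs.mul_left _) ((summable_N h0 h1).mul_left _), tsum_mul_left,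
    tsum_mul_left] at h2
  push_cast at h2
  linarith

theorem T_eq (h0 : 0 < z) (h1 : z < 1 / 2) :
    ((1 - 2 * z) ^ 2 * (1 - z)) * ((1 + z) ^ 2 * ∑' s : Stk, z ^ (rd s).mu * ((rd s).w : ℝ)) =
      2 * z ^ 3 * (1 + z) := by
  have e1 := Z_eq h0 h1
  have e2 := N_eq h0 h1
  have e3 := T_eq' h0 h1
  set Z := ∑' s : Stk, z ^ (rd s).mu
  set N := ∑' s : Stk, z ^ (rd s).mu * ((rd s).n : ℝ)
  set T := ∑' s : Stk, z ^ (rd s).mu * ((rd s).w : ℝ)
  rw [one_sub_t] at e3
  -- (1-2z)(1-z^2) N = (2z+4z²)(1-2z) + (z+4z²) 2z = 2z(1+z)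
  have e4 : (1 - 2 * z) * ((1 - z ^ 2) * N) = 2 * z * (1 + z) := by
    rw [e2]
    linear_combination (z + 4 * z ^ 2) * e1
  have h5 : (1 + z) ≠ 0 := by positivity
  have e5 : (1 + z) * (((1 - 2 * z) ^ 2 * (1 - z)) * ((1 + z) ^ 2 * T)) =
      (1 + z) * (2 * z ^ 3 * (1 + z)) := by
    linear_combination (1 - 2 * z) * (1 - z) * (1 + z) ^ 2 * e3 + (1 + z) * z ^ 2 * e4
  exact mul_left_cancel₀ h5 e5

/-! ### upper bound for the longest run -/

theorem two_le_M (s : Stk) : 2 ≤ (rd s).M ∧ (rd s).n ≤ (rd s).M := by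
  show 2 ≤ (dat s).M ∧ (dat s).n ≤ (dat s).M
  induction s with
  | bot c => fin_cases c <;> simp [dat, datBot]
  | push s c ih =>
    have h : dat (.push s c) = (dat s).step c := rfl
    rw [h]
    generalize dat s = d at ih
    obtain ⟨h1, h2⟩ := ih
    obtain ⟨l, mu, n, w, M, el, er, lam⟩ := d
    cases l <;> fin_cases c <;> simp [Dat.step] at h1 h2 ⊢ <;> omega

theorem summable_H (h0 : 0 < z) (h1 : z < 1 / 2) (j : ℕ) :
    Summable fun s : Stk => z ^ (rd s).mu * (if j < (rd s).n then (1 : ℝ) else 0) := by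
  refine Summable.of_nonneg_of_le (fun s => ?_) (fun s => ?_) (summable_Z h0 h1)
  · split_ifs <;> positivity
  · have : 0 ≤ z ^ (rd s).mu := by positivity
    split_ifs
    · linarith
    · linarith

theorem H_le (h0 : 0 < z) (h1 : z < 1 / 2) (j : ℕ) :
    ∑' s : Stk, z ^ (rd s).mu * (if j < (rd s).n then (1 : ℝ) else 0) ≤
      z ^ (j - 1) * ∑' s : Stk, z ^ (rd s).mu := by
  have hZ := summable_Z h0 h1
  have hbase : ∀ j, ∑' s : Stk, z ^ (rd s).mu * (if j < (rd s).n then (1 : ℝ) else 0) ≤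
      ∑' s : Stk, z ^ (rd s).mu := by
    intro j
    refine (summable_H h0 h1 j).tsum_le_tsum (fun s => ?_) hZ
    have : 0 ≤ z ^ (rd s).mu := by positivity
    split_ifs
    · linarith
    · linarith
  have hrec : ∀ j, ∑' s : Stk, z ^ (rd s).mu * (if j + 2 < (rd s).n then (1 : ℝ) else 0) =
      z ^ 2 * ∑' s : Stk, z ^ (rd s).mu * (if j < (rd s).n then (1 : ℝ) else 0) := by
    intro j
    have h2 := tsum_stk _ (summable_H h0 h1 (j + 2))
    have h3 := sum_bots (fun d => z ^ d.mu * (if j + 2 < d.n then (1 : ℝ) else 0))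
    simp only at h3
    rw [h3] at h2
    have h4 : ∀ s : Stk, ∑ i : Fin 3, z ^ (rd (.push s i)).mu *
        (if j + 2 < (rd (.push s i)).n then (1 : ℝ) else 0) =
        z ^ 2 * (z ^ (rd s).mu * (if j < (rd s).n then (1 : ℝ) else 0)) := by
      intro s
      have := sum_children_z (z := z) (fun d => if j + 2 < d.n then (1 : ℝ) else 0) s
      rw [this]
      have a1 : ¬ (j + 2 < 1) := by omega
      have a2 : ¬ (j + 2 < 2) := by omega
      simp only [a1, a2, if_false, add_lt_add_iff_right]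
      ring
    simp only [h4] at h2
    rw [tsum_mul_left] at h2
    rw [h2]
    have a1 : ¬ (j + 2 < 1) := by omega
    have a2 : ¬ (j + 2 < 2) := by omega
    simp [a1, a2]
  induction j using Nat.strong_induction_on with
  | _ j ih =>
    match j, ih with
    | 0, _ => simpa using hbase 0
    | 1, _ => simpa using hbase 1
    | j + 2, ih =>
      rw [hrec]
      have h5 := ih j (by omega)
      have h6 : z ^ 2 * (z ^ (j - 1) * ∑' s : Stk, z ^ (rd s).mu) ≤
          z ^ (j + 2 - 1) * ∑' s : Stk, z ^ (rd s).mu := by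
        rw [← mul_assoc, ← pow_add]
        apply mul_le_mul_of_nonneg_right _ (tsum_nonneg fun s => by positivity)
        apply pow_le_pow_of_le_one h0.le (by linarith)
        omega
      refine le_trans (mul_le_mul_of_nonneg_left h5 (by positivity)) h6

theorem M_bound (h0 : 0 < z) (h1 : z < 1 / 2) (k : ℕ) (hk : 3 ≤ k) :
    (Summable fun s : Stk => z ^ (rd s).mu * (((rd s).M - k : ℕ) : ℝ)) ∧
    (1 - 2 * z) * ∑' s : Stk, z ^ (rd s).mu * (((rd s).M - k : ℕ) : ℝ) ≤
      2 * z ^ (k - 1) * ∑' s : Stk, z ^ (rd s).mu := by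
  have hH := summable_H h0 h1 (k - 2)
  have hc := contraction (fun s => z ^ (rd s).mu * (((rd s).M - k : ℕ) : ℝ))
    (fun s => 2 * z ^ 2 * (z ^ (rd s).mu * (if k - 2 < (rd s).n then (1 : ℝ) else 0)))
    (z + 2 * z ^ 2) (by positivity) (t_lt_one h0 h1) (fun s => by positivity)
    (fun s => by split_ifs <;> positivity) (hH.mul_left _) (by
      intro s
      have := sum_children_z (z := z) (fun d => ((d.M - k : ℕ) : ℝ)) s
      rw [this]
      obtain ⟨-, h2⟩ := two_le_M s
      have h3 : ((max (rd s).M ((rd s).n + 2) - k : ℕ) : ℝ) ≤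
          (((rd s).M - k : ℕ) : ℝ) + 2 * (if k - 2 < (rd s).n then (1 : ℝ) else 0) := by
        split_ifs with h4
        · have : max (rd s).M ((rd s).n + 2) - k ≤ ((rd s).M - k) + 2 := by omega
          calc ((max (rd s).M ((rd s).n + 2) - k : ℕ) : ℝ) ≤ (((rd s).M - k + 2 : ℕ) : ℝ) := by
                exact_mod_cast this
            _ = _ := by push_cast; ring
        · have : max (rd s).M ((rd s).n + 2) - k ≤ ((rd s).M - k) := by omega
          calc ((max (rd s).M ((rd s).n + 2) - k : ℕ) : ℝ) ≤ (((rd s).M - k : ℕ) : ℝ) := by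
                exact_mod_cast this
            _ = _ := by ring
      have h5 : 0 ≤ z ^ (rd s).mu := by positivity
      have h6 : 0 ≤ z ^ 2 := by positivity
      have h7 := mul_le_mul_of_nonneg_left (mul_le_mul_of_nonneg_left h3 h6) h5
      nlinarith)
  refine ⟨hc.1, ?_⟩
  have h2 := hc.2
  rw [tsum_mul_left] at h2
  have h3 := sum_bots (fun d => z ^ d.mu * ((d.M - k : ℕ) : ℝ))
  simp only at h3
  rw [h3] at h2
  have h4 : 2 - k = 0 := by omega
  rw [h4] at h2
  have h5 := H_le h0 h1 (k - 2)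
  have h6 : k - 1 = 2 + (k - 2 - 1) := by omega
  rw [one_sub_t] at h2
  set S := ∑' s : Stk, z ^ (rd s).mu * (((rd s).M - k : ℕ) : ℝ)
  have hS : 0 ≤ S := tsum_nonneg fun s => by positivity
  have h7 : (1 - 2 * z) * S ≤ (1 - 2 * z) * (1 + z) * S := by
    have : 0 ≤ (1 - 2 * z) * z * S := mul_nonneg (mul_nonneg (by linarith) h0.le) hS
    nlinarith
  have h8 : 2 * z ^ 2 * ∑' s : Stk, z ^ (rd s).mu * (if k - 2 < (rd s).n then (1 : ℝ) else 0) ≤
      2 * z ^ 2 * (z ^ (k - 2 - 1) * ∑' s : Stk, z ^ (rd s).mu) :=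
    mul_le_mul_of_nonneg_left h5 (by positivity)
  rw [h6, pow_add]
  simp only [Nat.cast_zero, mul_zero, add_zero, zero_add] at h2
  linarith

/-! ### lower bound for the longest run between equal turns -/

theorem Y_bound (h0 : 0 < z) (h1 : z < 1 / 2) (l : ℕ) (hl : 3 ≤ l) :
    ∑' s : Stk, z ^ (rd s).mu * (if (rd s).e < l then (1 : ℝ) else 0) ≤ 6 * 2 ^ l := by
  set ε : ℝ := 1 / 2 ^ (l + 2) with hε
  have hε0 : 0 < ε := by positivity
  have hε1 : ε ≤ 1 / 32 := by
    rw [hε]
    apply one_div_le_one_div_of_le (by norm_num)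
    calc (32 : ℝ) = 2 ^ 5 := by norm_num
      _ ≤ 2 ^ (l + 2) := pow_le_pow_right₀ (by norm_num) (by omega)
  set g : ℕ → ℝ := fun n => if n < l then 1 - ε * 2 ^ n else 1 / 2 with hg
  have hεn : ∀ n, n < l → ε * 2 ^ n ≤ 1 / 8 := by
    intro n hn
    rw [hε, one_div, inv_mul_le_iff₀ (by positivity)]
    have : (2 : ℝ) ^ (n + 3) ≤ 2 ^ (l + 2) := pow_le_pow_right₀ (by norm_num) (by omega)
    rw [pow_add] at this
    linarith
  have hg_lo : ∀ n, 1 / 2 ≤ g n := by
    intro n
    simp only [hg]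
    split_ifs with h
    · linarith [hεn n h]
    · exact le_rfl
  have hg_hi : ∀ n, g n ≤ 1 := by
    intro n
    simp only [hg]
    split_ifs with h
    · have : 0 ≤ ε * 2 ^ n := by positivity
      linarith
    · norm_num
  have hg1 : g 1 = 1 - ε * 2 := by simp only [hg]; rw [if_pos (by omega)]; norm_num
  have hg2 : g 2 = 1 - ε * 4 := by simp only [hg]; rw [if_pos (by omega)]; norm_num
  have hstep1 : ∀ n, n < l → (1 / 2) * g 1 + (1 / 4) * g (n + 2) + (1 / 4) * g 2 ≤
      (1 - 2 * ε) * g n := by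
    intro n hn
    rw [hg1, hg2]
    have h3 := hεn n hn
    by_cases h4 : n + 2 < l
    · simp only [hg]
      rw [if_pos h4, if_pos hn, pow_add]
      have : 0 ≤ ε * (ε * 2 ^ n) := by positivity
      nlinarith
    · simp only [hg]
      rw [if_neg h4, if_pos hn]
      nlinarith
  have hstep2 : ∀ n, (1 / 4) * g (n + 2) + (1 / 4) * g 2 ≤ (1 - 2 * ε) * g n := by
    intro n
    by_cases hn : n < l
    · have := hstep1 n hn
      have := hg_lo 1
      linarith
    · have h5 : g n = 1 / 2 := by simp only [hg]; rw [if_neg hn]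
      have h6 : g (n + 2) = 1 / 2 := by simp only [hg]; rw [if_neg (by omega)]
      rw [h5, h6]
      have := hg_hi 2
      linarith
  set φ : Stk → ℝ := fun s => z ^ (rd s).mu * (if (rd s).e < l then g (rd s).n else 0) with hφ
  have hc := contraction φ (fun _ => 0) (1 - 2 * ε) (by linarith) (by linarith)
    (fun s => by
      simp only [hφ]
      split_ifs
      · have := hg_lo (rd s).n
        positivity
      · simp) (fun _ => le_rfl) summable_zero (by
      intro s
      have := sum_children_z (z := z) (fun d => if d.e < l then g d.n else 0) s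
      simp only [hφ]
      rw [this]
      have h5 : 0 ≤ z ^ (rd s).mu := by positivity
      rw [add_zero]
      have h8 : z ^ 2 ≤ 1 / 4 := by nlinarith
      by_cases he : (rd s).e < l
      · rw [if_pos he, if_pos he, if_pos he]
        have k1 := hg_lo ((rd s).n + 2)
        have k2 := hg_lo 2
        by_cases hn : (rd s).n < l
        · rw [if_pos (by simp [he, hn])]
          have h7 := hstep1 _ hn
          have k3 := hg_lo 1
          have : z * g 1 + z ^ 2 * g ((rd s).n + 2) + z ^ 2 * g 2 ≤ (1 - 2 * ε) * g (rd s).n := by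
            nlinarith
          nlinarith
        · rw [if_neg (by simp [he]; omega)]
          have h7 := hstep2 (rd s).n
          have : z * 0 + z ^ 2 * g ((rd s).n + 2) + z ^ 2 * g 2 ≤ (1 - 2 * ε) * g (rd s).n := by
            nlinarith
          nlinarith
      · rw [if_neg he, if_neg he, if_neg he, if_neg (by simp; omega)]
        simp)
  obtain ⟨hc1, hc2⟩ := hc
  have h3 := sum_bots (fun d => z ^ d.mu * (if d.e < l then g d.n else 0))
  have h4 : ∑ c : Fin 4, φ (.bot c) ≤ 3 / 2 := by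
    have h5 : ∑ c : Fin 4, φ (.bot c) =
      2 * (z ^ 1 * (if 0 < l then g 1 else 0)) + 2 * (z ^ 2 * (if 0 < l then g 2 else 0)) := h3
    rw [h5, if_pos (by omega), if_pos (by omega)]
    have := hg_hi 1
    have := hg_hi 2
    have := hg_lo 1
    have := hg_lo 2
    have h8 : z ^ 2 ≤ 1 / 4 := by nlinarith
    nlinarith
  have h6 : 2 * ε * ∑' s, φ s ≤ 3 / 2 := by
    have : (1 - (1 - 2 * ε)) * ∑' s, φ s ≤ ∑ c : Fin 4, φ (.bot c) + ∑' _ : Stk, (0 : ℝ) := hc2
    rw [tsum_zero] at this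
    linarith
  have h7 : ∑' s : Stk, z ^ (rd s).mu * (if (rd s).e < l then (1 : ℝ) else 0) ≤
      2 * ∑' s, φ s := by
    rw [← tsum_mul_left]
    refine Summable.tsum_le_tsum (fun s => ?_) ?_ (hc1.mul_left 2)
    · simp only [hφ]
      have h5 : 0 ≤ z ^ (rd s).mu := by positivity
      have := hg_lo (rd s).n
      split_ifs
      · nlinarith
      · simp
    · refine Summable.of_nonneg_of_le (fun s => ?_) (fun s => ?_) (summable_Z h0 h1)
      · split_ifs <;> positivity
      · have : 0 ≤ z ^ (rd s).mu := by positivity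
        split_ifs
        · linarith
        · linarith
  have h8 : ε * 2 ^ l = 1 / 4 := by
    rw [hε, pow_add]
    field_simp
    norm_num
  have h9 : ∑' s, φ s ≤ 3 * 2 ^ l := by
    have : 2 * ε * ∑' s, φ s ≤ 2 * ε * (3 * 2 ^ l) := by
      have : 2 * ε * (3 * 2 ^ l) = 3 / 2 := by linear_combination 6 * h8
      rw [this]; exact h6
    exact le_of_mul_le_mul_left this (by positivity)
  linarith

end Pool.Agent.GrowthOR
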