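import Pool.Agent.GrowthOR.Data

set_option autoImplicit false

/-!
# Upper bounds for the word length (short words with many different drifts)
-/

namespace Pool.Agent.GrowthOR

/-- length at a corner -/
noncomputable def cor (s : Option Stk) (c : Fin 4) (m : ℤ) : ℤ := len (m, s, c)

/-- length at the left end of the entry edge -/
noncomputable def fE (s : Option Stk) (m : ℤ) : ℤ := len (m - 1, s, 3)

theorem cor_three (s : Option Stk) (m : ℤ) : cor s 3 m = fE s (m + 1) := by
  unfold cor fE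
  rw [add_sub_cancel_right]

theorem cor_adj (s : Option Stk) (c : Fin 3) (m : ℤ) :
    cor s c.succ m ≤ cor s c.castSucc m + 1 ∧ cor s c.castSucc m ≤ cor s c.succ m + 1 := by
  have h : pX (m, s, c.castSucc) = (m, s, c.succ) := by
    show stepX (m, s, c.castSucc) = (m, s, c.succ)
    fin_cases c <;> rfl
  have h1 := len_pX (m, s, c.castSucc)
  have h2 := len_pX' (m, s, c.castSucc)
  rw [h] at h1 h2
  unfold cor
  constructor <;> exact_mod_cast ‹_›

theorem fE_adj (s : Option Stk) (m : ℤ) :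
    fE s m ≤ cor s 0 m + 1 ∧ cor s 0 m ≤ fE s m + 1 := by
  have h : pX (m - 1, s, 3) = (m, s, 0) := by
    show (m - 1 + 1, s, (0 : Fin 4)) = (m, s, 0)
    rw [sub_add_cancel]
  have h1 := len_pX (m - 1, s, 3)
  have h2 := len_pX' (m - 1, s, 3)
  rw [h] at h1 h2
  unfold cor fE
  constructor <;> exact_mod_cast ‹_›

/-- going on to the next square on the right side -/
theorem push_right (s : Stk) (c : Fin 3) (m : ℤ) :
    cor (some (.push s c)) 0 m ≤ cor (some s) c.castSucc m + 1 := by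
  have h : pY (pX (m, some s, c.castSucc)) = (m, some (.push s c), 0) := by
    show stepY (stepX (m, some s, c.castSucc)) = _
    fin_cases c <;> rfl
  have h1 := len_pU (m, some s, c.castSucc)
  rw [h] at h1
  unfold cor
  exact_mod_cast h1

/-- going on to the next square on the left side -/
theorem push_left (s : Stk) (c : Fin 3) (m : ℤ) :
    fE (some (.push s c)) m ≤ cor (some s) c.succ (m + 1) + 1 := by
  have h : pY (pX (m - 1, some (.push s c), 3)) = (m + 1, some s, c.succ) := by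
    show stepY (m - 1 + 1, some (.push s c), (0 : Fin 4)) = _
    rw [sub_add_cancel]
    rfl
  have h1 := len_pU' (m - 1, some (.push s c), 3)
  rw [h] at h1
  unfold cor fE
  exact_mod_cast h1

theorem bot_right (c : Fin 3) (m : ℤ) :
    cor (some (.bot c.succ)) 0 m ≤ cor none c.castSucc m + 1 := by
  have h : pY (pX (m, none, c.castSucc)) = (m, some (.bot c.succ), 0) := by
    show stepY (stepX (m, none, c.castSucc)) = _
    fin_cases c <;> rfl
  have h1 := len_pU (m, none, c.castSucc)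
  rw [h] at h1
  unfold cor
  exact_mod_cast h1

theorem bot_left (c : Fin 4) (m : ℤ) :
    fE (some (.bot c)) m ≤ cor none c (m + 1) + 1 := by
  have h : pY (pX (m - 1, some (.bot c), 3)) = (m + 1, none, c) := by
    show stepY (m - 1 + 1, some (.bot c), (0 : Fin 4)) = _
    rw [sub_add_cancel]
    rfl
  have h1 := len_pU' (m - 1, some (.bot c), 3)
  rw [h] at h1
  unfold cor fE
  exact_mod_cast h1

theorem bot_zero_right (m : ℤ) :
    cor (some (.bot 0)) 0 m ≤ fE none m + 1 := by
  have h : pY (pX (m - 1, none, 3)) = (m, some (.bot 0), 0) := by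
    show stepY (m - 1 + 1, none, (0 : Fin 4)) = _
    rw [sub_add_cancel]
    rfl
  have h1 := len_pU (m - 1, none, 3)
  rw [h] at h1
  unfold cor fE
  exact_mod_cast h1

/-- the left end is closer -/
def UL (p q : ℤ → ℤ) (μ w n l el er : ℤ) : Prop :=
  (∀ m, l ≤ m → m ≤ l + w → p m ≤ μ) ∧
  (∀ m, l ≤ m → m ≤ l + w + n → q m ≤ μ + 1) ∧
  (∀ m, l - el ≤ m → m ≤ l + w + er → p m ≤ μ + 2) ∧
  (∀ m, l - el ≤ m → m ≤ l + w + n + er → q m ≤ μ + 3)

/-- the right end is closer -/
def UR (p q : ℤ → ℤ) (μ w n l el er : ℤ) : Prop :=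
  (∀ m, l ≤ m → m ≤ l + w → q m ≤ μ) ∧
  (∀ m, l - n ≤ m → m ≤ l + w → p m ≤ μ + 1) ∧
  (∀ m, l - el ≤ m → m ≤ l + w + er → q m ≤ μ + 2) ∧
  (∀ m, l - n - el ≤ m → m ≤ l + w + er → p m ≤ μ + 3)

theorem UL.nx {p q p' q' : ℤ → ℤ} {μ w n l el er : ℤ} (h : UL p q μ w n l el er)
    (hw : 0 ≤ w) (hel : 0 ≤ el) (her : 0 ≤ er)
    (h1 : ∀ m, p' m ≤ p (m + 1) + 1) (h2 : ∀ m, q' m ≤ q m + 1) (h3 : ∀ m, q' m ≤ p' m + 1) :
    UL p' q' (μ + 1) w (n + 1) (l - 1) el er := by
  obtain ⟨a1, a2, a3, a4⟩ := h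
  refine ⟨fun m b1 b2 => ?_, fun m b1 b2 => ?_, fun m b1 b2 => ?_, fun m b1 b2 => ?_⟩
  · have := a1 (m + 1) (by linarith) (by linarith)
    linarith [h1 m]
  · by_cases hm : l ≤ m
    · have := a2 m hm (by linarith)
      linarith [h2 m]
    · have := a1 (m + 1) (by linarith) (by omega)
      linarith [h1 m, h3 m]
  · have := a3 (m + 1) (by linarith) (by linarith)
    linarith [h1 m]
  · by_cases hm : l - el ≤ m
    · have := a4 m hm (by linarith)
      linarith [h2 m]
    · have := a3 (m + 1) (by linarith) (by omega)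
      linarith [h1 m, h3 m]

theorem UR.nx {p q p' q' : ℤ → ℤ} {μ w n l el er : ℤ} (h : UR p q μ w n l el er)
    (hw : 0 ≤ w) (hel : 0 ≤ el) (her : 0 ≤ er)
    (h1 : ∀ m, p' m ≤ p (m + 1) + 1) (h2 : ∀ m, q' m ≤ q m + 1) (h3 : ∀ m, p' m ≤ q' m + 1) :
    UR p' q' (μ + 1) w (n + 1) l el er := by
  obtain ⟨a1, a2, a3, a4⟩ := h
  refine ⟨fun m b1 b2 => ?_, fun m b1 b2 => ?_, fun m b1 b2 => ?_, fun m b1 b2 => ?_⟩
  · have := a1 m b1 b2
    linarith [h2 m]
  · by_cases hm : m + 1 ≤ l + w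
    · have := a2 (m + 1) (by linarith) hm
      linarith [h1 m]
    · have := a1 m (by omega) b2
      linarith [h2 m, h3 m]
  · have := a3 m b1 b2
    linarith [h2 m]
  · by_cases hm : m + 1 ≤ l + w + er
    · have := a4 (m + 1) (by linarith) hm
      linarith [h1 m]
    · have := a3 m (by omega) b2
      linarith [h2 m, h3 m]

/-- corners of a square: `f` and `g` are the lengths at the entry edge -/
structure Sq (f : ℤ → ℤ) (k : Fin 4 → ℤ → ℤ) : Prop where
  three : ∀ m, k 3 m = f (m + 1)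
  up01 : ∀ m, k 1 m ≤ k 0 m + 1
  dn01 : ∀ m, k 0 m ≤ k 1 m + 1
  up12 : ∀ m, k 2 m ≤ k 1 m + 1
  dn12 : ∀ m, k 1 m ≤ k 2 m + 1
  up23 : ∀ m, k 3 m ≤ k 2 m + 1
  dn23 : ∀ m, k 2 m ≤ k 3 m + 1
  fg : ∀ m, f m ≤ k 0 m + 1
  gf : ∀ m, k 0 m ≤ f m + 1

theorem sq_cor (s : Option Stk) : Sq (fE s) (cor s) where
  three := cor_three s
  up01 m := (cor_adj s 0 m).1
  dn01 m := (cor_adj s 0 m).2
  up12 m := (cor_adj s 1 m).1
  dn12 m := (cor_adj s 1 m).2
  up23 m := (cor_adj s 2 m).1
  dn23 m := (cor_adj s 2 m).2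
  fg m := (fE_adj s m).1
  gf m := (fE_adj s m).2

section
variable {f : ℤ → ℤ} {k : Fin 4 → ℤ → ℤ} {μ w n l el er : ℤ}

theorem UL.left (S : Sq f k) (h : UL f (k 0) μ w n l el er) (hw : 0 ≤ w) (her : 0 ≤ er) :
    UL (k 3) (k 2) μ w 0 (l - 1) el (max er n) := by
  obtain ⟨a1, a2, a3, a4⟩ := h
  have hp : ∀ m, k 3 m = f (m + 1) := S.three
  have c3 : ∀ m, l - 1 - el ≤ m → m ≤ l - 1 + w + max er n → k 3 m ≤ μ + 2 := by
    intro m b1 b2
    rw [hp]
    by_cases hm : m + 1 ≤ l + w + er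
    · exact a3 _ (by linarith) hm
    · have h1 : m + 1 ≤ l + w + n := by
        rcases le_total er n with h | h
        · rw [max_eq_right h] at b2; linarith
        · rw [max_eq_left h] at b2; linarith
      have := a2 (m + 1) (by omega) h1
      linarith [S.fg (m + 1)]
  refine ⟨fun m b1 b2 => ?_, fun m b1 b2 => ?_, c3, fun m b1 b2 => ?_⟩
  · rw [hp]; exact a1 _ (by linarith) (by linarith)
  · have := a1 (m + 1) (by linarith) (by linarith)
    have h5 := S.dn23 m
    rw [hp] at h5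
    linarith
  · have := c3 m b1 (by linarith)
    linarith [S.dn23 m]

theorem UR.right (S : Sq f k) (h : UR f (k 0) μ w n l el er) (hw : 0 ≤ w) (hel : 0 ≤ el) :
    UR (k 1) (k 0) μ w 0 l (max el n) er := by
  obtain ⟨a1, a2, a3, a4⟩ := h
  have c3 : ∀ m, l - max el n ≤ m → m ≤ l + w + er → k 0 m ≤ μ + 2 := by
    intro m b1 b2
    by_cases hm : l - el ≤ m
    · exact a3 _ hm b2
    · have h1 : l - n ≤ m := by
        rcases le_total el n with h | h
        · rw [max_eq_right h] at b1; linarith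
        · rw [max_eq_left h] at b1; linarith
      have := a2 m h1 (by omega)
      linarith [S.gf m]
  refine ⟨a1, fun m b1 b2 => ?_, c3, fun m b1 b2 => ?_⟩
  · have := a1 m (by linarith) b2
    linarith [S.up01 m]
  · have := c3 m (by linarith) b2
    linarith [S.up01 m]

theorem UR.left (S : Sq f k) (h : UR f (k 0) μ w n l el er) (hw : 0 ≤ w) (hn : 0 ≤ n)
    (hel : 0 ≤ el) (her : 0 ≤ er) :
    UL (k 3) (k 2) (μ + 1) (w + n) 1 (l - n - 1) el er := by
  obtain ⟨a1, a2, a3, a4⟩ := h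
  have hp : ∀ m, k 3 m = f (m + 1) := S.three
  refine ⟨fun m b1 b2 => ?_, fun m b1 b2 => ?_, fun m b1 b2 => ?_, fun m b1 b2 => ?_⟩
  · rw [hp]; exact a2 _ (by linarith) (by linarith)
  · by_cases hm : m + 1 ≤ l + w
    · have := a2 (m + 1) (by linarith) hm
      have h5 := S.dn23 m
      rw [hp] at h5
      linarith
    · have := a1 m (by omega) (by linarith)
      linarith [S.up12 m, S.up01 m]
  · rw [hp]
    have := a4 (m + 1) (by linarith) (by linarith)
    linarith
  · by_cases hm : m + 1 ≤ l + w + er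
    · have := a4 (m + 1) (by linarith) hm
      have h5 := S.dn23 m
      rw [hp] at h5
      linarith
    · have := a3 m (by omega) (by linarith)
      linarith [S.up12 m, S.up01 m]

theorem UL.right (S : Sq f k) (h : UL f (k 0) μ w n l el er) (hw : 0 ≤ w) (hn : 0 ≤ n)
    (hel : 0 ≤ el) (her : 0 ≤ er) :
    UR (k 1) (k 0) (μ + 1) (w + n) 1 l el er := by
  obtain ⟨a1, a2, a3, a4⟩ := h
  have hp : ∀ m, k 3 m = f (m + 1) := S.three
  refine ⟨fun m b1 b2 => ?_, fun m b1 b2 => ?_, fun m b1 b2 => ?_, fun m b1 b2 => ?_⟩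
  · exact a2 m b1 (by linarith)
  · by_cases hm : l ≤ m
    · have := a2 m hm (by linarith)
      linarith [S.up01 m]
    · have := a1 (m + 1) (by linarith) (by omega)
      have h5 := S.dn12 m
      have h6 := S.dn23 m
      rw [hp] at h6
      linarith
  · have := a4 m b1 (by linarith)
    linarith
  · by_cases hm : l - el ≤ m
    · have := a4 m hm (by linarith)
      linarith [S.up01 m]
    · have := a3 (m + 1) (by linarith) (by omega)
      have h5 := S.dn12 m
      have h6 := S.dn23 m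
      rw [hp] at h6
      linarith

theorem UL.straight (S : Sq f k) (h : UL f (k 0) μ w n l el er) (hw : 0 ≤ w)
    (hel : 0 ≤ el) (her : 0 ≤ er) :
    UL (k 2) (k 1) (μ + 1) w (n + 1) (l - 1) el er := by
  refine h.nx hw hel her (fun m => ?_) S.up01 S.dn12
  have := S.dn23 m
  rwa [S.three] at this

theorem UR.straight (S : Sq f k) (h : UR f (k 0) μ w n l el er) (hw : 0 ≤ w)
    (hel : 0 ≤ el) (her : 0 ≤ er) :
    UR (k 2) (k 1) (μ + 1) w (n + 1) l el er := by
  refine h.nx hw hel her (fun m => ?_) S.up01 S.up12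
  have := S.dn23 m
  rwa [S.three] at this

end

/-- the invariant -/
def InvU (d : Dat) (p q : ℤ → ℤ) : Prop :=
  if d.lft then UL p q d.mu d.w d.n d.lam d.el d.er else UR p q d.mu d.w d.n d.lam d.el d.er

theorem inv_push_left (s : Stk) (c : Fin 3) {μ w n l el er : ℤ}
    (h : UL (cor (some s) c.succ) (cor (some s) c.castSucc) μ w n l el er)
    (hw : 0 ≤ w) (hel : 0 ≤ el) (her : 0 ≤ er) :
    UL (fE (some (.push s c))) (cor (some (.push s c)) 0) (μ + 1) w (n + 1) (l - 1) el er :=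
  h.nx hw hel her (push_left s c) (push_right s c) (sq_cor _).gf

theorem inv_push_right (s : Stk) (c : Fin 3) {μ w n l el er : ℤ}
    (h : UR (cor (some s) c.succ) (cor (some s) c.castSucc) μ w n l el er)
    (hw : 0 ≤ w) (hel : 0 ≤ el) (her : 0 ≤ er) :
    UR (fE (some (.push s c))) (cor (some (.push s c)) 0) (μ + 1) w (n + 1) l el er :=
  h.nx hw hel her (push_left s c) (push_right s c) (sq_cor _).fg

theorem inv_bot_left (c : Fin 3) {μ w n l el er : ℤ}
    (h : UL (cor none c.succ) (cor none c.castSucc) μ w n l el er)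
    (hw : 0 ≤ w) (hel : 0 ≤ el) (her : 0 ≤ er) :
    UL (fE (some (.bot c.succ))) (cor (some (.bot c.succ)) 0) (μ + 1) w (n + 1) (l - 1) el er :=
  h.nx hw hel her (bot_left c.succ) (bot_right c) (sq_cor _).gf

theorem inv_bot_right (c : Fin 3) {μ w n l el er : ℤ}
    (h : UR (cor none c.succ) (cor none c.castSucc) μ w n l el er)
    (hw : 0 ≤ w) (hel : 0 ≤ el) (her : 0 ≤ er) :
    UR (fE (some (.bot c.succ))) (cor (some (.bot c.succ)) 0) (μ + 1) w (n + 1) l el er :=
  h.nx hw hel her (bot_left c.succ) (bot_right c) (sq_cor _).fg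

theorem cor_none_zero : cor none 0 0 = 0 := by
  have : len ((0 : ℤ), (none : Option Stk), (0 : Fin 4)) = 0 := len_base
  unfold cor
  rw [this]; rfl

theorem fE_none_zero : fE none 0 ≤ 1 := by
  have := (fE_adj none 0).1
  rw [cor_none_zero] at this
  linarith

theorem invU_base : UR (fE none) (cor none 0) 0 0 0 0 0 0 := by
  have h1 := cor_none_zero
  have h2 := fE_none_zero
  refine ⟨fun m b1 b2 => ?_, fun m b1 b2 => ?_, fun m b1 b2 => ?_, fun m b1 b2 => ?_⟩ <;>
  · have : m = 0 := by omega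
    subst this
    linarith

theorem invU_base' : UL (cor none 0) (fE none) 0 0 0 0 0 0 := by
  have h1 := cor_none_zero
  have h2 := fE_none_zero
  refine ⟨fun m b1 b2 => ?_, fun m b1 b2 => ?_, fun m b1 b2 => ?_, fun m b1 b2 => ?_⟩ <;>
  · have : m = 0 := by omega
    subst this
    linarith

theorem invU_ent (s : Stk) : InvU (dat s) (fE (some s)) (cor (some s) 0) := by
  induction s with
  | bot c =>
    fin_cases c
    · have h := invU_base'.nx le_rfl le_rfl le_rfl (bot_left 0) bot_zero_right (sq_cor _).gf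
      exact h
    · have h := inv_bot_right 0 (invU_base.right (sq_cor none) le_rfl le_rfl) le_rfl
        (by simp) le_rfl
      exact h
    · have h := inv_bot_right 1 (invU_base.straight (sq_cor none) le_rfl le_rfl le_rfl) le_rfl
        le_rfl le_rfl
      exact h
    · have h := inv_bot_left 2 (invU_base.left (sq_cor none) le_rfl le_rfl le_rfl le_rfl)
        (by norm_num) le_rfl le_rfl
      exact h
  | push s c ih =>
    have h : dat (.push s c) = (dat s).step c := rfl
    rw [h]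
    have S := sq_cor (some s)
    generalize dat s = d at ih ⊢
    obtain ⟨l, mu, n, w, M, el, er, lam⟩ := d
    have hn0 : (0 : ℤ) ≤ n := Int.natCast_nonneg n
    have hw0 : (0 : ℤ) ≤ w := Int.natCast_nonneg w
    have hel0 : (0 : ℤ) ≤ el := Int.natCast_nonneg el
    have her0 : (0 : ℤ) ≤ er := Int.natCast_nonneg er
    cases l with
    | true =>
      have ihL : UL (fE (some s)) (cor (some s) 0) mu w n lam el er := ih
      fin_cases c
      · have := inv_push_right s 0 (ihL.right S hw0 hn0 hel0 her0) (by linarith) hel0 her0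
        show UR _ _ ((mu + 2 : ℕ) : ℤ) ((w + n : ℕ) : ℤ) ((2 : ℕ) : ℤ) lam el er
        have e1 : ((mu + 2 : ℕ) : ℤ) = (mu : ℤ) + 1 + 1 := by push_cast; ring
        have e2 : ((w + n : ℕ) : ℤ) = (w : ℤ) + n := by push_cast; ring
        rw [e1, e2]
        exact this
      · have := inv_push_left s 1 (ihL.straight S hw0 hel0 her0) hw0 hel0 her0
        show UL _ _ ((mu + 2 : ℕ) : ℤ) (w : ℤ) ((n + 2 : ℕ) : ℤ) (lam - 2) el er
        have e1 : ((mu + 2 : ℕ) : ℤ) = (mu : ℤ) + 1 + 1 := by push_cast; ring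
        have e2 : ((n + 2 : ℕ) : ℤ) = (n : ℤ) + 1 + 1 := by push_cast; ring
        have e3 : lam - 2 = lam - 1 - 1 := by ring
        rw [e1, e2, e3]
        exact this
      · have := inv_push_left s 2 (ihL.left S hw0 her0) hw0 hel0 (le_max_of_le_left her0)
        show UL _ _ ((mu + 1 : ℕ) : ℤ) (w : ℤ) ((1 : ℕ) : ℤ) (lam - 2) el ((max er n : ℕ) : ℤ)
        have e1 : ((mu + 1 : ℕ) : ℤ) = (mu : ℤ) + 1 := by push_cast; ring
        have e2 : ((max er n : ℕ) : ℤ) = max (er : ℤ) n := by push_cast; rfl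
        have e3 : lam - 2 = lam - 1 - 1 := by ring
        rw [e1, e2, e3]
        exact this
    | false =>
      have ihR : UR (fE (some s)) (cor (some s) 0) mu w n lam el er := ih
      fin_cases c
      · have := inv_push_right s 0 (ihR.right S hw0 hel0) hw0 (le_max_of_le_left hel0) her0
        show UR _ _ ((mu + 1 : ℕ) : ℤ) (w : ℤ) ((1 : ℕ) : ℤ) lam ((max el n : ℕ) : ℤ) er
        have e1 : ((mu + 1 : ℕ) : ℤ) = (mu : ℤ) + 1 := by push_cast; ring
        have e2 : ((max el n : ℕ) : ℤ) = max (el : ℤ) n := by push_cast; rfl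
        rw [e1, e2]
        exact this
      · have := inv_push_right s 1 (ihR.straight S hw0 hel0 her0) hw0 hel0 her0
        show UR _ _ ((mu + 2 : ℕ) : ℤ) (w : ℤ) ((n + 2 : ℕ) : ℤ) lam el er
        have e1 : ((mu + 2 : ℕ) : ℤ) = (mu : ℤ) + 1 + 1 := by push_cast; ring
        have e2 : ((n + 2 : ℕ) : ℤ) = (n : ℤ) + 1 + 1 := by push_cast; ring
        rw [e1, e2]
        exact this
      · have := inv_push_left s 2 (ihR.left S hw0 hn0 hel0 her0) (by linarith) hel0 her0
        show UL _ _ ((mu + 2 : ℕ) : ℤ) ((w + n : ℕ) : ℤ) ((2 : ℕ) : ℤ) (lam - n - 2) el er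
        have e1 : ((mu + 2 : ℕ) : ℤ) = (mu : ℤ) + 1 + 1 := by push_cast; ring
        have e2 : ((w + n : ℕ) : ℤ) = (w : ℤ) + n := by push_cast; ring
        have e3 : lam - n - 2 = lam - n - 1 - 1 := by ring
        rw [e1, e2, e3]
        exact this

end Pool.Agent.GrowthOR
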