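import Pool.Agent.GrowthOR.Lower
import Pool.Agent.GrowthOR.Upper
import Pool.Agent.GrowthOR.Sums

set_option autoImplicit false

/-!
# Counting drifts
-/

namespace Pool.Agent.GrowthOR

open scoped ENNReal

theorem geom_le_two {x : ℝ≥0∞} (hx : x ≤ 1 / 2) : ∑' n : ℕ, x ^ n ≤ 2 := by
  rw [ENNReal.tsum_geometric]
  have h1 : (2 : ℝ≥0∞)⁻¹ ≤ 1 - x := by
    have h2 : (1 : ℝ≥0∞) - 1 / 2 = 2⁻¹ := by
      rw [one_div]
      exact ENNReal.one_sub_inv_two
    rw [← h2]
    exact tsub_le_tsub_left hx 1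
  have := ENNReal.inv_le_inv.2 h1
  rwa [inv_inv] at this

theorem tsum_div_le {x : ℝ≥0∞} (hx : x ≤ 1 / 2) (K : ℕ) (hK : 0 < K) :
    ∑' i : ℕ, x ^ (i / K) ≤ 2 * K := by
  have : NeZero K := ⟨hK.ne'⟩
  have h1 : ∑' i : ℕ, x ^ (i / K) = ∑' p : ℕ × Fin K, x ^ p.1 := by
    rw [← (Nat.divModEquiv K).tsum_eq]
    rfl
  rw [h1, ENNReal.tsum_prod' (f := fun p : ℕ × Fin K => x ^ p.1)]
  have h2 : ∀ a : ℕ, ∑' _ : Fin K, x ^ a = (K : ℝ≥0∞) * x ^ a := by
    intro a
    rw [tsum_fintype, Finset.sum_const, Finset.card_univ, Fintype.card_fin, nsmul_eq_mul]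
  simp only [h2]
  rw [ENNReal.tsum_mul_left, mul_comm]
  exact mul_le_mul_left (geom_le_two hx) _

theorem tail_sum {x : ℝ≥0∞} (hx : x ≤ 1 / 2) (h : ℤ → ℕ) (ν W K : ℕ) (hK : 0 < K) (a : ℤ)
    (h1 : ∀ m, (ν : ℤ) ≤ h m) (h2 : ∀ m, 2 * (m - (a + W)) ≤ K * ((h m : ℤ) - ν))
    (h3 : ∀ m, 2 * (a - m) ≤ K * ((h m : ℤ) - ν)) :
    ∑' m, x ^ h m ≤ x ^ ν * (W + 1 + 4 * K) := by
  have hx1 : x ≤ 1 := le_trans hx (by rw [one_div]; exact ENNReal.inv_le_one.2 (by norm_num))
  -- pointwise bound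
  set i1 : ℤ → ℝ≥0∞ := fun m => if m ∈ Finset.Icc a (a + W) then 1 else 0 with hi1
  set i2 : ℤ → ℝ≥0∞ := fun m => if a + W < m then x ^ ((m - (a + W + 1)).toNat / K) else 0 with hi2
  set i3 : ℤ → ℝ≥0∞ := fun m => if m < a then x ^ ((a - 1 - m).toNat / K) else 0 with hi3
  have hpt : ∀ m, x ^ h m ≤ x ^ ν * (i1 m + i2 m + i3 m) := by
    intro m
    have hKpos : (0 : ℤ) < K := by exact_mod_cast hK
    have key : ∀ i : ℕ, ((i : ℤ) ≤ K * ((h m : ℤ) - ν)) → x ^ h m ≤ x ^ ν * x ^ (i / K) := by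
      intro i hi
      have h5 : i ≤ K * (h m - ν) := by
        have h6 : ((h m - ν : ℕ) : ℤ) = (h m : ℤ) - ν := by
          have := h1 m
          omega
        have : (i : ℤ) ≤ ((K * (h m - ν) : ℕ) : ℤ) := by
          push_cast [h6]; exact hi
        exact_mod_cast this
      have h7 : i / K ≤ h m - ν := by
        calc i / K ≤ (K * (h m - ν)) / K := Nat.div_le_div_right h5
          _ = h m - ν := Nat.mul_div_cancel_left _ hK
      have h8 : ν + i / K ≤ h m := by
        have := h1 m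
        omega
      rw [← pow_add]
      exact pow_le_pow_right_of_le_one' hx1 h8
    rcases lt_trichotomy m a with hm | hm | hm
    · have e1 : i3 m = x ^ ((a - 1 - m).toNat / K) := by simp only [hi3]; rw [if_pos hm]
      have h9 := key (a - 1 - m).toNat (by
        rw [Int.toNat_of_nonneg (by omega)]
        have := h3 m
        linarith)
      calc x ^ h m ≤ x ^ ν * x ^ ((a - 1 - m).toNat / K) := h9
        _ = x ^ ν * i3 m := by rw [e1]
        _ ≤ _ := mul_le_mul_right (le_add_left le_rfl) _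
    · have e1 : i1 m = 1 := by
        simp only [hi1]; rw [if_pos]; rw [Finset.mem_Icc]; omega
      have h9 := key 0 (by
        have := h1 m
        have : (0 : ℤ) ≤ (h m : ℤ) - ν := by omega
        push_cast
        positivity)
      calc x ^ h m ≤ x ^ ν * x ^ (0 / K) := h9
        _ = x ^ ν * i1 m := by rw [e1]; simp
        _ ≤ _ := mul_le_mul_right (le_trans (le_add_right le_rfl) (le_add_right le_rfl)) _
    · by_cases hm2 : m ≤ a + W
      · have e1 : i1 m = 1 := by
          simp only [hi1]; rw [if_pos]; rw [Finset.mem_Icc]; omega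
        have h9 := key 0 (by
          have := h1 m
          have : (0 : ℤ) ≤ (h m : ℤ) - ν := by omega
          push_cast
          positivity)
        calc x ^ h m ≤ x ^ ν * x ^ (0 / K) := h9
          _ = x ^ ν * i1 m := by rw [e1]; simp
          _ ≤ _ := mul_le_mul_right (le_trans (le_add_right le_rfl) (le_add_right le_rfl)) _
      · have e1 : i2 m = x ^ ((m - (a + W + 1)).toNat / K) := by
          simp only [hi2]; rw [if_pos (by omega)]
        have h9 := key (m - (a + W + 1)).toNat (by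
          rw [Int.toNat_of_nonneg (by omega)]
          have := h2 m
          push_cast
          linarith)
        calc x ^ h m ≤ x ^ ν * x ^ ((m - (a + W + 1)).toNat / K) := h9
          _ = x ^ ν * i2 m := by rw [e1]
          _ ≤ _ := mul_le_mul_right (le_trans (le_add_left le_rfl) (le_add_right le_rfl)) _
  have s1 : ∑' m, i1 m = W + 1 := by
    rw [tsum_eq_sum (s := Finset.Icc a (a + W))]
    · simp only [hi1]
      rw [Finset.sum_ite_mem, Finset.inter_self, Finset.sum_const, Int.card_Icc]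
      have : (a + W + 1 - a).toNat = W + 1 := by omega
      rw [this]
      simp
    · intro m hm
      simp only [hi1]
      rw [if_neg hm]
  have s2 : ∑' m, i2 m ≤ 2 * K := by
    have hinj : Function.Injective (fun i : ℕ => a + W + 1 + (i : ℤ)) := by
      intro i j hij
      simpa using hij
    rw [← hinj.tsum_eq]
    · refine le_trans (ENNReal.tsum_le_tsum fun i => ?_) (tsum_div_le hx K hK)
      simp only [hi2]
      rw [if_pos (by omega)]
      have : (a + W + 1 + (i : ℤ) - (a + W + 1)).toNat = i := by omega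
      rw [this]
    · intro m hm
      rw [Function.mem_support] at hm
      simp only [hi2] at hm
      have hm2 : a + W < m := by
        by_contra hcon
        rw [if_neg hcon] at hm
        exact hm rfl
      exact ⟨(m - (a + W + 1)).toNat, by simp only; omega⟩
  have s3 : ∑' m, i3 m ≤ 2 * K := by
    have hinj : Function.Injective (fun i : ℕ => a - 1 - (i : ℤ)) := by
      intro i j hij
      simpa using hij
    rw [← hinj.tsum_eq]
    · refine le_trans (ENNReal.tsum_le_tsum fun i => ?_) (tsum_div_le hx K hK)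
      simp only [hi3]
      rw [if_pos (by omega)]
      have : (a - 1 - (a - 1 - (i : ℤ))).toNat = i := by omega
      rw [this]
    · intro m hm
      rw [Function.mem_support] at hm
      simp only [hi3] at hm
      have hm2 : m < a := by
        by_contra hcon
        rw [if_neg hcon] at hm
        exact hm rfl
      exact ⟨(a - 1 - m).toNat, by simp only; omega⟩
  calc ∑' m, x ^ h m ≤ ∑' m, x ^ ν * (i1 m + i2 m + i3 m) := ENNReal.tsum_le_tsum hpt
    _ = x ^ ν * (∑' m, i1 m + ∑' m, i2 m + ∑' m, i3 m) := by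
        rw [ENNReal.tsum_mul_left, ENNReal.tsum_add, ENNReal.tsum_add]
    _ ≤ x ^ ν * ((W + 1) + 2 * K + 2 * K) := by
        apply mul_le_mul_right
        rw [s1]
        exact add_le_add (add_le_add le_rfl s2) s3
    _ = x ^ ν * (W + 1 + 4 * K) := by
        congr 1
        rw [add_assoc, ← add_mul]
        norm_num

/-- lower bound by counting -/
theorem count_lower {x : ℝ≥0∞} (hx : x ≤ 1) (h : ℤ → ℕ) (ν W p q : ℕ) (a : ℤ)
    (h1 : ∀ m, a ≤ m → m ≤ a + W → h m ≤ ν)
    (h2 : ∀ m, a - p ≤ m → m ≤ a + W + q → h m ≤ ν + 2) :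
    (W + 1) * x ^ ν + (p + q) * x ^ (ν + 2) ≤ ∑' m, x ^ h m := by
  classical
  set B := Finset.Icc (a - p) (a + W + q)
  set S := Finset.Icc a (a + W)
  have hS : S ⊆ B := by
    intro m hm
    rw [Finset.mem_Icc] at hm ⊢
    omega
  have c1 : S.card = W + 1 := by
    rw [Int.card_Icc]; omega
  have c2 : (B \ S).card = p + q := by
    rw [Finset.card_sdiff_of_subset hS, c1, Int.card_Icc]; omega
  calc (W + 1) * x ^ ν + (p + q) * x ^ (ν + 2)
      = ∑ m ∈ S, x ^ ν + ∑ m ∈ B \ S, x ^ (ν + 2) := by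
        rw [Finset.sum_const, Finset.sum_const, c1, c2, nsmul_eq_mul, nsmul_eq_mul]
        push_cast
        rfl
    _ ≤ ∑ m ∈ S, x ^ h m + ∑ m ∈ B \ S, x ^ h m := by
        apply add_le_add
        · apply Finset.sum_le_sum
          intro m hm
          rw [Finset.mem_Icc] at hm
          exact pow_le_pow_right_of_le_one' hx (h1 m hm.1 hm.2)
        · apply Finset.sum_le_sum
          intro m hm
          rw [Finset.mem_sdiff, Finset.mem_Icc] at hm
          exact pow_le_pow_right_of_le_one' hx (h2 m hm.1.1 hm.1.2)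
    _ = ∑ m ∈ B, x ^ h m := by
        rw [add_comm]
        exact Finset.sum_sdiff hS
    _ ≤ _ := ENNReal.sum_le_tsum B

/-- the sum over the drifts at a corner -/
noncomputable def SS (x : ℝ≥0∞) (s : Option Stk) (c : Fin 4) : ℝ≥0∞ :=
  ∑' m : ℤ, x ^ len (m, s, c)

theorem lowC_le_len' (m : ℤ) (s : Option Stk) (c : Fin 4) :
    L (entO s).1 (entO s).2 c m ≤ len (m, s, c) := lowC_le_len (m, s, c)

theorem SS_upper {x : ℝ≥0∞} (hx : x ≤ 1 / 2) (s : Option Stk) (c : Fin 4) (ν W K : ℕ)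
    (hK : 0 < K) (a : ℤ)
    (h1 : ∀ m, (ν : ℤ) ≤ L (entO s).1 (entO s).2 c m)
    (h2 : ∀ m, 2 * (m - (a + W)) ≤ K * (L (entO s).1 (entO s).2 c m - ν))
    (h3 : ∀ m, 2 * (a - m) ≤ K * (L (entO s).1 (entO s).2 c m - ν)) :
    SS x s c ≤ x ^ ν * (W + 1 + 4 * K) := by
  have hK0 : (0 : ℤ) ≤ K := Int.natCast_nonneg K
  refine tail_sum hx (fun m => len (m, s, c)) ν W K hK a (fun m => ?_) (fun m => ?_)
    (fun m => ?_)
  · exact le_trans (h1 m) (lowC_le_len' m s c)
  · refine le_trans (h2 m) (mul_le_mul_of_nonneg_left ?_ hK0)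
    linarith [lowC_le_len' m s c]
  · refine le_trans (h3 m) (mul_le_mul_of_nonneg_left ?_ hK0)
    linarith [lowC_le_len' m s c]

theorem square_upper {x : ℝ≥0∞} (hx : x ≤ 1 / 2) (s : Stk) :
    ∑ c : Fin 4, SS x (some s) c ≤
      x ^ (dat s).mu * ((dat s).w + 1 + 4 * ((dat s).M + 2 : ℕ)) +
      x ^ ((dat s).mu + 1) * ((dat s).w + 1 + 4 * ((dat s).M + 2 : ℕ)) +
      x ^ ((dat s).mu + 1) * (((dat s).w + (dat s).n : ℕ) + 1 + 4 * ((dat s).M + 2 : ℕ)) +
      x ^ ((dat s).mu + 2) * (((dat s).w + (dat s).n + 1 : ℕ) + 1 + 4 * ((dat s).M + 2 : ℕ)) := by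
  have h := inv_ent ((dat s).M + 2) s le_rfl
  have h2 := two_le_datM s
  rw [Fin.sum_univ_four]
  have hent : entO (some s) = ent s := rfl
  have key := SS_upper hx (some s)
  rw [hent] at key
  revert key h
  generalize (ent s).1 = f
  generalize (ent s).2 = g
  generalize dat s = d at h2 ⊢
  obtain ⟨l, mu, n, w, M, el, er, lam⟩ := d
  intro h key
  simp only at h2 ⊢
  have hn0 : (0 : ℤ) ≤ n := Int.natCast_nonneg n
  have hnM : ((n : ℕ) : ℤ) ≤ M := by exact_mod_cast h2.2
  have hK : 0 < M + 2 := by omega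
  have hKc : (((M + 2 : ℕ)) : ℤ) = (M : ℤ) + 2 := by push_cast; ring
  cases l with
  | true =>
    have hL : EL ((M : ℤ) + 2) f g mu w n lam := h
    have hN := hL.nx hn0 (by linarith)
    have k3 : SS x (some s) 3 ≤ x ^ mu * (w + 1 + 4 * (M + 2 : ℕ)) := by
      refine key 3 mu w (M + 2) hK (lam - 1) (fun m => ?_) (fun m => ?_) (fun m => ?_)
      · exact (hL (m + 1)).1
      · rw [hKc]
        have := (hL (m + 1)).2.2.1
        show 2 * (m - (lam - 1 + w)) ≤ ((M : ℤ) + 2) * (f (m + 1) - mu)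
        linarith
      · rw [hKc]
        have := (hL (m + 1)).2.2.2.1
        show 2 * (lam - 1 - m) ≤ ((M : ℤ) + 2) * (f (m + 1) - mu)
        linarith
    have k2 : SS x (some s) 2 ≤ x ^ (mu + 1) * (w + 1 + 4 * (M + 2 : ℕ)) := by
      refine key 2 (mu + 1) w (M + 2) hK (lam - 1) (fun m => ?_) (fun m => ?_) (fun m => ?_)
      · push_cast; exact (hN m).1
      · rw [hKc]; push_cast
        exact (hN m).2.2.1
      · rw [hKc]; push_cast
        exact (hN m).2.2.2.1
    have k0 : SS x (some s) 0 ≤ x ^ (mu + 1) * ((w + n : ℕ) + 1 + 4 * (M + 2 : ℕ)) := by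
      refine key 0 (mu + 1) (w + n) (M + 2) hK lam (fun m => ?_) (fun m => ?_) (fun m => ?_)
      · push_cast; exact (hL m).2.1
      · rw [hKc]; push_cast
        have := (hL m).2.2.2.2.1
        show 2 * (m - (lam + (w + n))) ≤ ((M : ℤ) + 2) * (g m - (mu + 1))
        rw [← sub_sub (g m)]
        linarith
      · rw [hKc]; push_cast
        have := (hL m).2.2.2.2.2
        show 2 * (lam - m) ≤ ((M : ℤ) + 2) * (g m - (mu + 1))
        rw [← sub_sub (g m)]
        linarith
    have k1 : SS x (some s) 1 ≤ x ^ (mu + 2) * ((w + n + 1 : ℕ) + 1 + 4 * (M + 2 : ℕ)) := by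
      refine key 1 (mu + 2) (w + n + 1) (M + 2) hK (lam - 1) (fun m => ?_) (fun m => ?_)
        (fun m => ?_)
      · push_cast
        have : (mu : ℤ) + 1 + 1 ≤ L f g 1 m := (hN m).2.1
        linarith
      · rw [hKc]; push_cast
        have h5 : 2 * (m - (lam - 1 + w) - (n + 1)) ≤ ((M : ℤ) + 2) * (L f g 1 m - (mu + 1) - 1) :=
          (hN m).2.2.2.2.1
        have e : L f g 1 m - ((mu : ℤ) + 2) = L f g 1 m - (mu + 1) - 1 := by ring
        rw [e]
        linarith
      · rw [hKc]; push_cast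
        have h5 : 2 * (lam - 1 - m) ≤ ((M : ℤ) + 2) * (L f g 1 m - (mu + 1) - 1) :=
          (hN m).2.2.2.2.2
        have e : L f g 1 m - ((mu : ℤ) + 2) = L f g 1 m - (mu + 1) - 1 := by ring
        rw [e]
        exact h5
    calc SS x (some s) 0 + SS x (some s) 1 + SS x (some s) 2 + SS x (some s) 3
        = SS x (some s) 3 + SS x (some s) 2 + SS x (some s) 0 + SS x (some s) 1 := by ring
      _ ≤ _ := add_le_add (add_le_add (add_le_add k3 k2) k0) k1
  | false =>
    have hR : ER ((M : ℤ) + 2) f g mu w n lam := h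
    have hN := hR.nx hn0 (by linarith)
    have k0 : SS x (some s) 0 ≤ x ^ mu * (w + 1 + 4 * (M + 2 : ℕ)) := by
      refine key 0 mu w (M + 2) hK lam (fun m => ?_) (fun m => ?_) (fun m => ?_)
      · exact (hR m).1
      · rw [hKc]; exact (hR m).2.2.1
      · rw [hKc]; exact (hR m).2.2.2.1
    have k1 : SS x (some s) 1 ≤ x ^ (mu + 1) * (w + 1 + 4 * (M + 2 : ℕ)) := by
      refine key 1 (mu + 1) w (M + 2) hK lam (fun m => ?_) (fun m => ?_) (fun m => ?_)
      · push_cast; exact (hN m).1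
      · rw [hKc]; push_cast; exact (hN m).2.2.1
      · rw [hKc]; push_cast; exact (hN m).2.2.2.1
    have k3 : SS x (some s) 3 ≤ x ^ (mu + 1) * ((w + n : ℕ) + 1 + 4 * (M + 2 : ℕ)) := by
      refine key 3 (mu + 1) (w + n) (M + 2) hK (lam - n - 1) (fun m => ?_) (fun m => ?_)
        (fun m => ?_)
      · push_cast; exact (hR (m + 1)).2.1
      · rw [hKc]; push_cast
        have := (hR (m + 1)).2.2.2.2.1
        show 2 * (m - (lam - n - 1 + (w + n))) ≤ ((M : ℤ) + 2) * (f (m + 1) - (mu + 1))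
        rw [← sub_sub (f (m + 1))]
        linarith
      · rw [hKc]; push_cast
        have := (hR (m + 1)).2.2.2.2.2
        show 2 * (lam - n - 1 - m) ≤ ((M : ℤ) + 2) * (f (m + 1) - (mu + 1))
        rw [← sub_sub (f (m + 1))]
        linarith
    have k2 : SS x (some s) 2 ≤ x ^ (mu + 2) * ((w + n + 1 : ℕ) + 1 + 4 * (M + 2 : ℕ)) := by
      refine key 2 (mu + 2) (w + n + 1) (M + 2) hK (lam - n - 1) (fun m => ?_) (fun m => ?_)
        (fun m => ?_)
      · push_cast
        have : (mu : ℤ) + 1 + 1 ≤ L f g 2 m := (hN m).2.1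
        linarith
      · rw [hKc]; push_cast
        have h5 : 2 * (m - (lam + w)) ≤ ((M : ℤ) + 2) * (L f g 2 m - (mu + 1) - 1) :=
          (hN m).2.2.2.2.1
        have e : L f g 2 m - ((mu : ℤ) + 2) = L f g 2 m - (mu + 1) - 1 := by ring
        rw [e]
        linarith
      · rw [hKc]; push_cast
        have h5 : 2 * (lam - (n + 1) - m) ≤ ((M : ℤ) + 2) * (L f g 2 m - (mu + 1) - 1) :=
          (hN m).2.2.2.2.2
        have e : L f g 2 m - ((mu : ℤ) + 2) = L f g 2 m - (mu + 1) - 1 := by ring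
        rw [e]
        linarith
    calc SS x (some s) 0 + SS x (some s) 1 + SS x (some s) 2 + SS x (some s) 3
        = SS x (some s) 0 + SS x (some s) 1 + SS x (some s) 3 + SS x (some s) 2 := by ring
      _ ≤ _ := add_le_add (add_le_add (add_le_add k0 k1) k3) k2

theorem abs_le_L (c : Fin 4) (m : ℤ) : |m| ≤ L f0 g0 c m := by
  have h1 : |m| ≤ |m + 1| + 1 := by
    have := abs_sub_abs_le_abs_sub m (m + 1)
    have h2 : |m - (m + 1)| = 1 := by
      have : m - (m + 1) = -1 := by ring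
      rw [this]; rfl
    linarith
  have h2 := abs_nonneg m
  have h3 := abs_nonneg (m + 1)
  fin_cases c <;> simp only [L, f0, g0]
  · show |m| ≤ 2 * |m|
    omega
  · show |m| ≤ min (2 * |m| + 1) (2 * |m + 1| + 1 + 2)
    rw [le_min_iff]
    constructor <;> omega
  · show |m| ≤ min (2 * |m + 1| + 1 + 1) (2 * |m| + 2)
    rw [le_min_iff]
    constructor <;> omega
  · show |m| ≤ 2 * |m + 1| + 1
    omega

theorem base_upper {x : ℝ≥0∞} (hx : x ≤ 1 / 2) : ∑ c : Fin 4, SS x none c ≤ 36 := by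
  have key : ∀ c : Fin 4, SS x none c ≤ 9 := by
    intro c
    have h := SS_upper hx none c 0 0 2 (by norm_num) 0 (fun m => ?_) (fun m => ?_) (fun m => ?_)
    · refine le_trans h (le_of_eq ?_)
      rw [pow_zero, one_mul]
      norm_num
    · have := abs_le_L c m
      have h2 := abs_nonneg m
      show (0 : ℤ) ≤ L f0 g0 c m
      linarith
    · have := abs_le_L c m
      have h2 := le_abs_self m
      show 2 * (m - (0 + ((0 : ℕ) : ℤ))) ≤ ((2 : ℕ) : ℤ) * (L f0 g0 c m - ((0 : ℕ) : ℤ))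
      push_cast
      linarith
    · have := abs_le_L c m
      have h2 := neg_abs_le m
      show 2 * (0 - m) ≤ ((2 : ℕ) : ℤ) * (L f0 g0 c m - ((0 : ℕ) : ℤ))
      push_cast
      linarith
  calc ∑ c : Fin 4, SS x none c ≤ ∑ _ : Fin 4, (9 : ℝ≥0∞) := Finset.sum_le_sum fun c _ => key c
    _ = 36 := by
        rw [Finset.sum_const, Finset.card_univ, Fintype.card_fin, nsmul_eq_mul]
        norm_num

theorem SS_lower {x : ℝ≥0∞} (hx : x ≤ 1) (s : Option Stk) (c : Fin 4) (ν W p q : ℕ) (a : ℤ)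
    (h1 : ∀ m, a ≤ m → m ≤ a + W → cor s c m ≤ ν)
    (h2 : ∀ m, a - p ≤ m → m ≤ a + W + q → cor s c m ≤ ν + 2) :
    (W + 1) * x ^ ν + (p + q) * x ^ (ν + 2) ≤ SS x s c := by
  refine count_lower hx (fun m => len (m, s, c)) ν W p q a (fun m a1 a2 => ?_) (fun m a1 a2 => ?_)
  · have := h1 m a1 a2
    unfold cor at this
    exact_mod_cast this
  · have := h2 m a1 a2
    unfold cor at this
    exact_mod_cast this

theorem SS_lower0 {x : ℝ≥0∞} (hx : x ≤ 1) (s : Option Stk) (c : Fin 4) (ν W : ℕ) (a : ℤ)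
    (h1 : ∀ m, a ≤ m → m ≤ a + W → cor s c m ≤ ν) :
    (W + 1) * x ^ ν ≤ SS x s c := by
  have := SS_lower hx s c ν W 0 0 a h1 (fun m a1 a2 => by
    have := h1 m (by simpa using a1) (by simpa using a2)
    linarith)
  refine le_trans ?_ this
  simp

theorem square_lower {x : ℝ≥0∞} (hx : x ≤ 1) (s : Stk) :
    ((dat s).w + 1) * x ^ (dat s).mu + ((dat s).el + (dat s).er) * x ^ ((dat s).mu + 2) +
      ((dat s).w + 1) * x ^ ((dat s).mu + 1) + ((dat s).w + 1) * x ^ ((dat s).mu + 1) +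
      ((dat s).w + 1) * x ^ ((dat s).mu + 2) ≤ ∑ c : Fin 4, SS x (some s) c := by
  have h := invU_ent s
  have S := sq_cor (some s)
  rw [Fin.sum_univ_four]
  generalize dat s = d at h ⊢
  obtain ⟨l, mu, n, w, M, el, er, lam⟩ := d
  simp only
  have hn0 : (0 : ℤ) ≤ n := Int.natCast_nonneg n
  cases l with
  | true =>
    have hL : UL (fE (some s)) (cor (some s) 0) mu w n lam el er := h
    obtain ⟨a1, a2, a3, a4⟩ := hL
    have c3 : ∀ m, lam - 1 ≤ m → m ≤ lam - 1 + w → cor (some s) 3 m ≤ mu := by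
      intro m b1 b2
      rw [cor_three]
      exact a1 _ (by linarith) (by linarith)
    have c0 : ∀ m, lam ≤ m → m ≤ lam + w → cor (some s) 0 m ≤ (mu + 1 : ℕ) := by
      intro m b1 b2
      push_cast
      exact a2 _ b1 (by linarith)
    have k3 : (w + 1) * x ^ mu + (el + er) * x ^ (mu + 2) ≤ SS x (some s) 3 := by
      refine SS_lower hx (some s) 3 mu w el er (lam - 1) c3 (fun m b1 b2 => ?_)
      rw [cor_three]
      exact a3 _ (by linarith) (by linarith)
    have k2 : (w + 1) * x ^ (mu + 1) ≤ SS x (some s) 2 := by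
      refine SS_lower0 hx (some s) 2 (mu + 1) w (lam - 1) (fun m b1 b2 => ?_)
      have := c3 m b1 b2
      push_cast
      linarith [S.dn23 m]
    have k0 : (w + 1) * x ^ (mu + 1) ≤ SS x (some s) 0 :=
      SS_lower0 hx (some s) 0 (mu + 1) w lam c0
    have k1 : (w + 1) * x ^ (mu + 2) ≤ SS x (some s) 1 := by
      refine SS_lower0 hx (some s) 1 (mu + 2) w lam (fun m b1 b2 => ?_)
      have := c0 m b1 b2
      push_cast at this ⊢
      linarith [S.up01 m]
    calc _ ≤ SS x (some s) 3 + SS x (some s) 2 + SS x (some s) 0 + SS x (some s) 1 :=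
          add_le_add (add_le_add (add_le_add k3 k2) k0) k1
      _ = _ := by ring
  | false =>
    have hR : UR (fE (some s)) (cor (some s) 0) mu w n lam el er := h
    obtain ⟨a1, a2, a3, a4⟩ := hR
    have c3 : ∀ m, lam - 1 ≤ m → m ≤ lam - 1 + w → cor (some s) 3 m ≤ (mu + 1 : ℕ) := by
      intro m b1 b2
      rw [cor_three]
      push_cast
      exact a2 _ (by linarith) (by linarith)
    have k0 : (w + 1) * x ^ mu + (el + er) * x ^ (mu + 2) ≤ SS x (some s) 0 :=
      SS_lower hx (some s) 0 mu w el er lam a1 a3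
    have k1 : (w + 1) * x ^ (mu + 1) ≤ SS x (some s) 1 := by
      refine SS_lower0 hx (some s) 1 (mu + 1) w lam (fun m b1 b2 => ?_)
      have := a1 m b1 b2
      push_cast
      linarith [S.up01 m]
    have k3 : (w + 1) * x ^ (mu + 1) ≤ SS x (some s) 3 :=
      SS_lower0 hx (some s) 3 (mu + 1) w (lam - 1) c3
    have k2 : (w + 1) * x ^ (mu + 2) ≤ SS x (some s) 2 := by
      refine SS_lower0 hx (some s) 2 (mu + 2) w (lam - 1) (fun m b1 b2 => ?_)
      have := c3 m b1 b2
      push_cast at this ⊢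
      linarith [S.dn23 m]
    calc _ ≤ SS x (some s) 0 + SS x (some s) 1 + SS x (some s) 3 + SS x (some s) 2 :=
          add_le_add (add_le_add (add_le_add k0 k1) k3) k2
      _ = _ := by ring

/-- the whole sum -/
theorem total_eq (x : ℝ≥0∞) : ∑' n : St, x ^ len n =
    ∑ c : Fin 4, SS x none c + ∑' s : Stk, ∑ c : Fin 4, SS x (some s) c := by
  have h1 : ∑' n : St, x ^ len n = ∑' p : Option Stk × Fin 4, SS x p.1 p.2 := by
    rw [ENNReal.tsum_prod' (f := fun n : St => x ^ len n), ENNReal.tsum_comm]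
    rfl
  rw [h1, ENNReal.tsum_prod' (f := fun p : Option Stk × Fin 4 => SS x p.1 p.2)]
  simp only [tsum_fintype]
  rw [← (Equiv.optionEquivSumPUnit.{0} Stk).symm.tsum_eq]
  rw [Summable.tsum_sum ENNReal.summable ENNReal.summable, add_comm]
  congr 1
  rw [tsum_fintype]
  simp

end Pool.Agent.GrowthOR
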