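import Pool.Agent.GrowthOR.Group

set_option autoImplicit false

/-!
# Numerical data of a stack and sums over all stacks
-/

namespace Pool.Agent.GrowthOR

/-- numerical data of a stack: which end of the entry edge is closer, its distance `mu`,
the number `n` of faces since the last turn, the width `w` of the set of drifts of geodesics, a bound
`M` for all run lengths, the longest runs `el, er` between two turns of the same kind, and the
left end `lam` of the interval of drifts -/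
structure Dat where
  lft : Bool
  mu : ℕ
  n : ℕ
  w : ℕ
  M : ℕ
  el : ℕ
  er : ℕ
  lam : ℤ

/-- one more turn -/
def Dat.step (d : Dat) (c : Fin 3) : Dat :=
  match d.lft, c with
  | true, 2 => ⟨true, d.mu + 1, 1, d.w, d.M, d.el, max d.er d.n, d.lam - 2⟩
  | true, 1 => ⟨true, d.mu + 2, d.n + 2, d.w, max d.M (d.n + 2), d.el, d.er, d.lam - 2⟩
  | true, 0 => ⟨false, d.mu + 2, 2, d.w + d.n, d.M, d.el, d.er, d.lam⟩
  | false, 0 => ⟨false, d.mu + 1, 1, d.w, d.M, max d.el d.n, d.er, d.lam⟩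
  | false, 1 => ⟨false, d.mu + 2, d.n + 2, d.w, max d.M (d.n + 2), d.el, d.er, d.lam⟩
  | false, 2 => ⟨true, d.mu + 2, 2, d.w + d.n, d.M, d.el, d.er, d.lam - d.n - 2⟩

/-- the data after the first turn -/
def datBot (c : Fin 4) : Dat :=
  match c with
  | 0 => ⟨true, 1, 1, 0, 2, 0, 0, -1⟩
  | 1 => ⟨false, 1, 1, 0, 2, 0, 0, 0⟩
  | 2 => ⟨false, 2, 2, 0, 2, 0, 0, 0⟩
  | 3 => ⟨true, 2, 2, 0, 2, 0, 0, -2⟩

/-- the data of a stack -/
def dat : Stk → Dat
  | .bot c => datBot c
  | .push s c => (dat s).step c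

/-- the data relevant for the sums -/
structure Rd where
  mu : ℕ
  n : ℕ
  w : ℕ
  M : ℕ
  e : ℕ

def rd (s : Stk) : Rd := ⟨(dat s).mu, (dat s).n, (dat s).w, (dat s).M, max (dat s).el (dat s).er⟩

theorem sum_children (Φ : Rd → ℝ) (s : Stk) :
    ∑ i : Fin 3, Φ (rd (.push s i)) =
      Φ ⟨(rd s).mu + 1, 1, (rd s).w, (rd s).M, max (rd s).e (rd s).n⟩ +
      Φ ⟨(rd s).mu + 2, (rd s).n + 2, (rd s).w, max (rd s).M ((rd s).n + 2), (rd s).e⟩ +
      Φ ⟨(rd s).mu + 2, 2, (rd s).w + (rd s).n, (rd s).M, (rd s).e⟩ := by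
  rw [Fin.sum_univ_three]
  unfold rd
  have h : ∀ i, dat (.push s i) = (dat s).step i := fun _ => rfl
  simp only [h]
  cases hd : (dat s).lft with
  | true =>
    simp only [Dat.step, hd]
    rw [max_assoc]
    ring
  | false =>
    simp only [Dat.step, hd]
    rw [max_right_comm]

theorem sum_bots (Φ : Rd → ℝ) :
    ∑ c : Fin 4, Φ (rd (.bot c)) = 2 * Φ ⟨1, 1, 0, 2, 0⟩ + 2 * Φ ⟨2, 2, 0, 2, 0⟩ := by
  rw [Fin.sum_univ_four]
  simp only [rd, dat, datBot, max_self]
  ring

/-- depth of a stack -/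
def depth : Stk → ℕ
  | .bot _ => 0
  | .push s _ => depth s + 1

def botEmb : Fin 4 ↪ Stk := ⟨Stk.bot, fun a b h => by injection h⟩
def pushEmb : Stk × Fin 3 ↪ Stk := ⟨fun p => Stk.push p.1 p.2, fun a b h => by
  injection h with h1 h2
  exact Prod.ext h1 h2⟩

open Classical in
/-- stacks of depth `< D` -/
noncomputable def stks : ℕ → Finset Stk
  | 0 => ∅
  | D + 1 => Finset.univ.map botEmb ∪ ((stks D) ×ˢ Finset.univ).map pushEmb

theorem mem_stks (D : ℕ) : ∀ s : Stk, depth s < D → s ∈ stks D := by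
  classical
  induction D with
  | zero => intro s h; omega
  | succ D ih =>
    intro s h
    unfold stks
    rw [Finset.mem_union]
    cases s with
    | bot c => left; exact Finset.mem_map.2 ⟨c, Finset.mem_univ _, rfl⟩
    | push s c =>
      right
      refine Finset.mem_map.2 ⟨(s, c), ?_, rfl⟩
      rw [Finset.mem_product]
      refine ⟨ih s ?_, Finset.mem_univ _⟩
      unfold depth at h
      omega

theorem sum_stks_succ (φ : Stk → ℝ) (D : ℕ) :
    ∑ s ∈ stks (D + 1), φ s =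
      ∑ c : Fin 4, φ (.bot c) + ∑ s ∈ stks D, ∑ i : Fin 3, φ (.push s i) := by
  classical
  rw [stks, Finset.sum_union]
  · rw [Finset.sum_map, Finset.sum_map, Finset.sum_product]
    rfl
  · rw [Finset.disjoint_left]
    intro s h1 h2
    obtain ⟨c, _, rfl⟩ := Finset.mem_map.1 h1
    obtain ⟨p, _, h3⟩ := Finset.mem_map.1 h2
    exact Stk.noConfusion h3

/-- the basic contraction estimate -/
theorem contraction (φ ψ : Stk → ℝ) (θ : ℝ) (hθ0 : 0 ≤ θ) (hθ : θ < 1) (hφ : ∀ s, 0 ≤ φ s)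
    (hψ : ∀ s, 0 ≤ ψ s) (hs : Summable ψ)
    (h : ∀ s, ∑ i : Fin 3, φ (.push s i) ≤ θ * φ s + ψ s) :
    Summable φ ∧ (1 - θ) * ∑' s, φ s ≤ ∑ c : Fin 4, φ (.bot c) + ∑' s, ψ s := by
  set B := ∑ c : Fin 4, φ (.bot c) + ∑' s, ψ s with hB
  have h1 : 0 < 1 - θ := by linarith
  have key : ∀ D, ∑ s ∈ stks D, φ s ≤ B / (1 - θ) := by
    intro D
    induction D with
    | zero =>
      simp only [stks, Finset.sum_empty]
      apply div_nonneg _ h1.le
      apply add_nonneg (Finset.sum_nonneg fun c _ => hφ _) (tsum_nonneg hψ)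
    | succ D ih =>
      rw [sum_stks_succ]
      have h2 : ∑ s ∈ stks D, ∑ i : Fin 3, φ (.push s i) ≤
          θ * (B / (1 - θ)) + ∑' s, ψ s := by
        calc ∑ s ∈ stks D, ∑ i : Fin 3, φ (.push s i) ≤ ∑ s ∈ stks D, (θ * φ s + ψ s) :=
              Finset.sum_le_sum fun s _ => h s
          _ = θ * ∑ s ∈ stks D, φ s + ∑ s ∈ stks D, ψ s := by
              rw [Finset.sum_add_distrib, Finset.mul_sum]
          _ ≤ θ * (B / (1 - θ)) + ∑' s, ψ s := by
              apply add_le_add (mul_le_mul_of_nonneg_left ih hθ0)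
              exact hs.sum_le_tsum _ (fun s _ => hψ s)
      have h3 : B / (1 - θ) = B + θ * (B / (1 - θ)) := by
        field_simp
        ring
      rw [h3, hB]
      linarith
  have key2 : ∀ F : Finset Stk, ∑ s ∈ F, φ s ≤ B / (1 - θ) := by
    intro F
    obtain ⟨D, hD⟩ : ∃ D, ∀ s ∈ F, depth s < D :=
      ⟨F.sup depth + 1, fun s hs => Nat.lt_succ_of_le (Finset.le_sup (f := depth) hs)⟩
    refine le_trans (Finset.sum_le_sum_of_subset_of_nonneg (fun s hs => mem_stks D s (hD s hs))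
      (fun s _ _ => hφ s)) (key D)
  have hsum : Summable φ := summable_of_sum_le hφ key2
  refine ⟨hsum, ?_⟩
  have h4 : ∑' s, φ s ≤ B / (1 - θ) := hsum.tsum_le_of_sum_le key2
  rw [le_div_iff₀ h1] at h4
  linarith

/-- decomposition of all stacks -/
def stkEquiv : Fin 4 ⊕ (Stk × Fin 3) ≃ Stk where
  toFun := Sum.elim Stk.bot (fun p => Stk.push p.1 p.2)
  invFun s := match s with
    | .bot c => Sum.inl c
    | .push s c => Sum.inr (s, c)
  left_inv := by rintro (c | ⟨s, c⟩) <;> rfl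
  right_inv := by rintro (c | ⟨s, c⟩) <;> rfl

theorem tsum_stk (φ : Stk → ℝ) (h : Summable φ) :
    ∑' s, φ s = ∑ c : Fin 4, φ (.bot c) + ∑' s, ∑ i : Fin 3, φ (.push s i) := by
  have h0 : ∑' s, φ s = ∑' x, φ (stkEquiv x) := (stkEquiv.tsum_eq φ).symm
  have h1 : Summable (fun x => φ (stkEquiv x)) := (stkEquiv.summable_iff).2 h
  have h2 : Summable fun c : Fin 4 => φ (Stk.bot c) :=
    h1.comp_injective (i := Sum.inl) Sum.inl_injective
  have h3 : Summable fun p : Stk × Fin 3 => φ (Stk.push p.1 p.2) :=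
    h1.comp_injective (i := Sum.inr) Sum.inr_injective
  have h4 : ∑' x, φ (stkEquiv x) = ∑' c : Fin 4, φ (Stk.bot c) +
      ∑' p : Stk × Fin 3, φ (Stk.push p.1 p.2) :=
    Summable.tsum_sum (f := fun x => φ (stkEquiv x)) h2 h3
  rw [h0, h4, tsum_fintype]
  congr 1
  rw [h3.tsum_prod]
  congr 1
  ext s
  rw [tsum_fintype]

end Pool.Agent.GrowthOR
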