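import Pool.Agent.GrowthOR.Count

set_option autoImplicit false

/-!
# The two-sided estimate of the growth series near `1/2`
-/

namespace Pool.Agent.GrowthOR

open scoped ENNReal

variable {z : ℝ}

theorem e_le_M (s : Stk) : (rd s).e ≤ (rd s).M := by
  show max (dat s).el (dat s).er ≤ (dat s).M
  have key : (dat s).el ≤ (dat s).M ∧ (dat s).er ≤ (dat s).M ∧ (dat s).n ≤ (dat s).M ∧
      2 ≤ (dat s).M := by
    induction s with
    | bot c => fin_cases c <;> simp [dat, datBot]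
    | push s c ih =>
      have h : dat (.push s c) = (dat s).step c := rfl
      rw [h]
      generalize dat s = d at ih
      obtain ⟨h1, h2, h3, h4⟩ := ih
      obtain ⟨l, mu, n, w, M, el, er, lam⟩ := d
      cases l <;> fin_cases c <;> simp [Dat.step] at h1 h2 h3 h4 ⊢ <;> omega
  exact max_le key.1 key.2.1

theorem summable_M (h0 : 0 < z) (h1 : z < 1 / 2) :
    Summable fun s : Stk => z ^ (rd s).mu * ((rd s).M : ℝ) := by
  have h2 := (M_bound h0 h1 3 le_rfl).1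
  have h3 := (summable_Z h0 h1).mul_left 3
  refine Summable.of_nonneg_of_le (fun s => by positivity) (fun s => ?_) (h2.add h3)
  have h5 : ((rd s).M : ℝ) ≤ (((rd s).M - 3 : ℕ) : ℝ) + 3 := by
    have : (rd s).M ≤ ((rd s).M - 3) + 3 := by omega
    exact_mod_cast this
  have h6 : 0 ≤ z ^ (rd s).mu := by positivity
  nlinarith

theorem summable_E (h0 : 0 < z) (h1 : z < 1 / 2) :
    Summable fun s : Stk => z ^ (rd s).mu * ((rd s).e : ℝ) := by
  refine Summable.of_nonneg_of_le (fun s => by positivity) (fun s => ?_) (summable_M h0 h1)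
  have h5 : ((rd s).e : ℝ) ≤ (rd s).M := by exact_mod_cast e_le_M s
  exact mul_le_mul_of_nonneg_left h5 (by positivity)

theorem toE (h0 : 0 < z) (ν a K : ℕ) : ENNReal.ofReal (z ^ ν * (a + 1 + 4 * K)) =
    ENNReal.ofReal z ^ ν * ((a : ℝ≥0∞) + 1 + 4 * (K : ℝ≥0∞)) := by
  rw [ENNReal.ofReal_mul (by positivity), ENNReal.ofReal_pow h0.le,
    ENNReal.ofReal_add (by positivity) (by positivity),
    ENNReal.ofReal_add (by positivity) (by positivity), ENNReal.ofReal_mul (by positivity),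
    ENNReal.ofReal_natCast, ENNReal.ofReal_natCast, ENNReal.ofReal_one]
  norm_num

theorem ofReal_le_half (h1 : z < 1 / 2) : ENNReal.ofReal z ≤ 1 / 2 := by
  have : ENNReal.ofReal z ≤ ENNReal.ofReal (1 / 2) := ENNReal.ofReal_le_ofReal h1.le
  refine le_trans this (le_of_eq ?_)
  rw [ENNReal.ofReal_div_of_pos (by norm_num)]
  norm_num

theorem square_upper' (h0 : 0 < z) (h1 : z < 1 / 2) (s : Stk) :
    ∑ c : Fin 4, SS (ENNReal.ofReal z) (some s) c ≤ ENNReal.ofReal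
      ((1 + z) ^ 2 * (z ^ (rd s).mu * (rd s).w) + 40 * (z ^ (rd s).mu * (rd s).M +
        z ^ (rd s).mu)) := by
  refine le_trans (square_upper (ofReal_le_half h1) s) ?_
  rw [← toE h0, ← toE h0, ← toE h0, ← toE h0, ← ENNReal.ofReal_add (by positivity)
    (by positivity), ← ENNReal.ofReal_add (by positivity) (by positivity),
    ← ENNReal.ofReal_add (by positivity) (by positivity)]
  apply ENNReal.ofReal_le_ofReal
  show _ ≤ (1 + z) ^ 2 * (z ^ (dat s).mu * (dat s).w) + 40 * (z ^ (dat s).mu * (dat s).M +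
        z ^ (dat s).mu)
  have h2 := two_le_datM s
  generalize dat s = d at h2 ⊢
  obtain ⟨l, mu, n, w, M, el, er, lam⟩ := d
  simp only at h2 ⊢
  have hn : (n : ℝ) ≤ M := by exact_mod_cast h2.2
  have hn0 : (0 : ℝ) ≤ n := Nat.cast_nonneg n
  have hM0 : (0 : ℝ) ≤ M := Nat.cast_nonneg M
  push_cast
  have e : z ^ mu * (w + 1 + 4 * ((M : ℝ) + 2)) + z ^ (mu + 1) * (w + 1 + 4 * ((M : ℝ) + 2)) +
      z ^ (mu + 1) * ((w : ℝ) + n + 1 + 4 * ((M : ℝ) + 2)) +
      z ^ (mu + 2) * ((w : ℝ) + n + 1 + 1 + 4 * ((M : ℝ) + 2)) =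
      z ^ mu * ((1 + z) ^ 2 * w + ((1 + 4 * ((M : ℝ) + 2)) * (1 + z) ^ 2 + n * (z + z ^ 2) +
        z ^ 2)) := by ring
  rw [e]
  have h5 : (1 + z) ^ 2 ≤ 9 / 4 := by nlinarith
  have h6 : z + z ^ 2 ≤ 3 / 4 := by nlinarith
  have h7 : z ^ 2 ≤ 1 / 4 := by nlinarith
  have h8 : (1 + 4 * ((M : ℝ) + 2)) * (1 + z) ^ 2 + n * (z + z ^ 2) + z ^ 2 ≤ 40 * (M + 1) := by
    have a1 : (1 + 4 * ((M : ℝ) + 2)) * (1 + z) ^ 2 ≤ (1 + 4 * ((M : ℝ) + 2)) * (9 / 4) :=
      mul_le_mul_of_nonneg_left h5 (by positivity)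
    have a2 : n * (z + z ^ 2) ≤ M * (3 / 4) :=
      mul_le_mul hn h6 (by positivity) hM0
    linarith
  have h9 : 0 ≤ z ^ mu := by positivity
  have := mul_le_mul_of_nonneg_left h8 h9
  nlinarith

theorem square_lower' (h0 : 0 < z) (h1 : z < 1 / 2) (s : Stk) :
    ENNReal.ofReal ((1 + z) ^ 2 * (z ^ (rd s).mu * (rd s).w) + z ^ 2 * (z ^ (rd s).mu *
      (rd s).e)) ≤ ∑ c : Fin 4, SS (ENNReal.ofReal z) (some s) c := by
  refine le_trans ?_ (square_lower (le_trans (ofReal_le_half h1) (by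
    rw [one_div]; exact ENNReal.inv_le_one.2 (by norm_num))) s)
  have e : ∀ (a ν : ℕ), ((a : ℝ≥0∞) + 1) * ENNReal.ofReal z ^ ν =
      ENNReal.ofReal ((a + 1) * z ^ ν) := by
    intro a ν
    rw [ENNReal.ofReal_mul (by positivity), ENNReal.ofReal_pow h0.le,
      ENNReal.ofReal_add (by positivity) (by positivity), ENNReal.ofReal_natCast,
      ENNReal.ofReal_one]
  have e2 : ∀ (a b ν : ℕ), ((a : ℝ≥0∞) + b) * ENNReal.ofReal z ^ ν =
      ENNReal.ofReal ((a + b) * z ^ ν) := by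
    intro a b ν
    rw [ENNReal.ofReal_mul (by positivity), ENNReal.ofReal_pow h0.le,
      ENNReal.ofReal_add (by positivity) (by positivity), ENNReal.ofReal_natCast,
      ENNReal.ofReal_natCast]
  rw [e, e, e, e2, ← ENNReal.ofReal_add (by positivity) (by positivity),
    ← ENNReal.ofReal_add (by positivity) (by positivity),
    ← ENNReal.ofReal_add (by positivity) (by positivity),
    ← ENNReal.ofReal_add (by positivity) (by positivity)]
  apply ENNReal.ofReal_le_ofReal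
  show (1 + z) ^ 2 * (z ^ (dat s).mu * (dat s).w) + z ^ 2 * (z ^ (dat s).mu *
      ((max (dat s).el (dat s).er : ℕ) : ℝ)) ≤ _
  generalize dat s = d
  obtain ⟨l, mu, n, w, M, el, er, lam⟩ := d
  simp only
  have h5 : ((max el er : ℕ) : ℝ) ≤ (el : ℝ) + er := by
    have : max el er ≤ el + er := by omega
    exact_mod_cast this
  have h9 : 0 ≤ z ^ mu := by positivity
  have h10 : 0 ≤ z ^ 2 * z ^ mu := by positivity
  have h11 := mul_le_mul_of_nonneg_left h5 h10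
  have e : (w + 1) * z ^ mu + ((el : ℝ) + er) * z ^ (mu + 2) + (w + 1) * z ^ (mu + 1) +
    (w + 1) * z ^ (mu + 1) + (w + 1) * z ^ (mu + 2) =
      (1 + z) ^ 2 * (z ^ mu * w) + z ^ 2 * z ^ mu * ((el : ℝ) + er) + z ^ mu * (1 + z) ^ 2 := by
    ring
  rw [e]
  have h12 : 0 ≤ z ^ mu * (1 + z) ^ 2 := by positivity
  linarith

/-- the growth series as a function -/
noncomputable def FF (z : ℝ) : ℝ≥0∞ := ∑' n : St, ENNReal.ofReal z ^ len n

theorem FF_upper (h0 : 0 < z) (h1 : z < 1 / 2) :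
    FF z ≤ ENNReal.ofReal (36 + ((1 + z) ^ 2 * ∑' s : Stk, z ^ (rd s).mu * ((rd s).w : ℝ) +
      40 * (∑' s : Stk, z ^ (rd s).mu * ((rd s).M : ℝ) + ∑' s : Stk, z ^ (rd s).mu))) := by
  unfold FF
  rw [total_eq]
  have hT := summable_T h0 h1
  have hM := summable_M h0 h1
  have hZ := summable_Z h0 h1
  have hs : Summable fun s : Stk => (1 + z) ^ 2 * (z ^ (rd s).mu * ((rd s).w : ℝ)) +
      40 * (z ^ (rd s).mu * ((rd s).M : ℝ) + z ^ (rd s).mu) :=
    (hT.mul_left _).add ((hM.add hZ).mul_left _)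
  have e : (1 + z) ^ 2 * ∑' s : Stk, z ^ (rd s).mu * ((rd s).w : ℝ) +
      40 * (∑' s : Stk, z ^ (rd s).mu * ((rd s).M : ℝ) + ∑' s : Stk, z ^ (rd s).mu) =
      ∑' s : Stk, ((1 + z) ^ 2 * (z ^ (rd s).mu * ((rd s).w : ℝ)) +
      40 * (z ^ (rd s).mu * ((rd s).M : ℝ) + z ^ (rd s).mu)) := by
    rw [Summable.tsum_add (hT.mul_left _) ((hM.add hZ).mul_left _), tsum_mul_left,
      tsum_mul_left, Summable.tsum_add hM hZ]
  rw [e, ENNReal.ofReal_add (by norm_num) (tsum_nonneg fun s => by positivity),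
    ENNReal.ofReal_tsum_of_nonneg (fun s => by positivity) hs]
  apply add_le_add
  · refine le_trans (base_upper (ofReal_le_half h1)) (le_of_eq ?_)
    norm_num
  · exact ENNReal.tsum_le_tsum fun s => square_upper' h0 h1 s

theorem FF_lower (h0 : 0 < z) (h1 : z < 1 / 2) :
    ENNReal.ofReal ((1 + z) ^ 2 * ∑' s : Stk, z ^ (rd s).mu * ((rd s).w : ℝ) +
      z ^ 2 * ∑' s : Stk, z ^ (rd s).mu * ((rd s).e : ℝ)) ≤ FF z := by
  unfold FF
  rw [total_eq]
  have hT := summable_T h0 h1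
  have hE := summable_E h0 h1
  have hs : Summable fun s : Stk => (1 + z) ^ 2 * (z ^ (rd s).mu * ((rd s).w : ℝ)) +
      z ^ 2 * (z ^ (rd s).mu * ((rd s).e : ℝ)) :=
    (hT.mul_left _).add (hE.mul_left _)
  have e : (1 + z) ^ 2 * ∑' s : Stk, z ^ (rd s).mu * ((rd s).w : ℝ) +
      z ^ 2 * ∑' s : Stk, z ^ (rd s).mu * ((rd s).e : ℝ) =
      ∑' s : Stk, ((1 + z) ^ 2 * (z ^ (rd s).mu * ((rd s).w : ℝ)) +
      z ^ 2 * (z ^ (rd s).mu * ((rd s).e : ℝ))) := by
    rw [Summable.tsum_add (hT.mul_left _) (hE.mul_left _), tsum_mul_left,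
      tsum_mul_left]
  rw [e, ENNReal.ofReal_tsum_of_nonneg (fun s => by positivity) hs]
  refine le_trans (ENNReal.tsum_le_tsum fun s => square_lower' h0 h1 s) ?_
  exact le_add_left le_rfl

/-! ### the values at `1/2 - 2^{-k}` -/

/-- the points of evaluation -/
noncomputable def zk (k : ℕ) : ℝ := 1 / 2 - (1 / 2) ^ k

theorem zk_lt (k : ℕ) : zk k < 1 / 2 := by
  unfold zk
  have : (0 : ℝ) < (1 / 2) ^ k := by positivity
  linarith

theorem quarter_le_zk (k : ℕ) (hk : 2 ≤ k) : 1 / 4 ≤ zk k := by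
  unfold zk
  have : ((1 : ℝ) / 2) ^ k ≤ (1 / 2) ^ 2 := pow_le_pow_of_le_one (by norm_num) (by norm_num) hk
  norm_num at this ⊢
  linarith

theorem Z_zk (k : ℕ) (hk : 2 ≤ k) : ∑' s : Stk, zk k ^ (rd s).mu = zk k * 2 ^ k := by
  have h0 : 0 < zk k := by linarith [quarter_le_zk k hk]
  have h := Z_eq h0 (zk_lt k)
  have h2 : 1 - 2 * zk k = 2 * (1 / 2) ^ k := by unfold zk; ring
  rw [h2] at h
  have h3 : ((1 : ℝ) / 2) ^ k * 2 ^ k = 1 := by rw [← mul_pow]; norm_num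
  set Z := ∑' s : Stk, zk k ^ (rd s).mu
  have h4 : (2 * (1 / 2) ^ k * Z) * 2 ^ k = 2 * zk k * 2 ^ k := by rw [h]
  have h5 : (2 * (1 / 2) ^ k * Z) * 2 ^ k = 2 * Z * ((1 / 2) ^ k * 2 ^ k) := by ring
  rw [h5, h3] at h4
  linarith

theorem M_zk (k : ℕ) (hk : 3 ≤ k) :
    ∑' s : Stk, zk k ^ (rd s).mu * ((rd s).M : ℝ) ≤
      (k + 2) * ∑' s : Stk, zk k ^ (rd s).mu := by
  have h0 : 0 < zk k := by linarith [quarter_le_zk k (by omega)]
  have h1 := zk_lt k
  obtain ⟨hs, hb⟩ := M_bound h0 h1 k hk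
  have hZ := summable_Z h0 h1
  set Z := ∑' s : Stk, zk k ^ (rd s).mu with hZdef
  set S := ∑' s : Stk, zk k ^ (rd s).mu * (((rd s).M - k : ℕ) : ℝ) with hSdef
  have hZ0 : 0 ≤ Z := tsum_nonneg fun s => by positivity
  have h2 : 1 - 2 * zk k = 2 * (1 / 2) ^ k := by unfold zk; ring
  have h3 : zk k ^ (k - 1) ≤ (1 / 2) ^ (k - 1) := pow_le_pow_left₀ h0.le h1.le _
  have h4 : ((1 : ℝ) / 2) ^ (k - 1) = 2 * (1 / 2) ^ k := by
    obtain ⟨j, rfl⟩ : ∃ j, k = j + 1 := ⟨k - 1, by omega⟩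
    simp only [Nat.add_sub_cancel, pow_succ]
    ring
  have hS : S ≤ 2 * Z := by
    rw [h2] at hb
    have h5 : 2 * zk k ^ (k - 1) * Z ≤ 2 * (2 * (1 / 2) ^ k) * Z := by
      rw [← h4]
      apply mul_le_mul_of_nonneg_right _ hZ0
      linarith
    have h6 : 2 * (1 / 2 : ℝ) ^ k * S ≤ 2 * (1 / 2) ^ k * (2 * Z) := by
      calc 2 * (1 / 2 : ℝ) ^ k * S ≤ 2 * zk k ^ (k - 1) * Z := hb
        _ ≤ 2 * (2 * (1 / 2) ^ k) * Z := h5
        _ = _ := by ring
    exact le_of_mul_le_mul_left h6 (by positivity)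
  have h7 : ∑' s : Stk, zk k ^ (rd s).mu * ((rd s).M : ℝ) ≤
      ∑' s : Stk, (zk k ^ (rd s).mu * (((rd s).M - k : ℕ) : ℝ) + k * zk k ^ (rd s).mu) := by
    refine (summable_M h0 h1).tsum_le_tsum (fun s => ?_) (hs.add (hZ.mul_left _))
    have h5 : ((rd s).M : ℝ) ≤ (((rd s).M - k : ℕ) : ℝ) + k := by
      have : (rd s).M ≤ ((rd s).M - k) + k := by omega
      exact_mod_cast this
    have h6 : 0 ≤ zk k ^ (rd s).mu := by positivity
    nlinarith
  rw [Summable.tsum_add hs (hZ.mul_left _), tsum_mul_left] at h7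
  have h8 : ∑' s : Stk, zk k ^ (rd s).mu * ((rd s).M : ℝ) ≤ S + k * Z := h7
  linarith

theorem E_zk (k : ℕ) (hk : 12 ≤ k) :
    (k : ℝ) * 2 ^ k * (10 / 128) ≤ ∑' s : Stk, zk k ^ (rd s).mu * ((rd s).e : ℝ) := by
  have h14 := quarter_le_zk k (by omega)
  have h0 : 0 < zk k := by linarith
  have h1 := zk_lt k
  have hY := Y_bound h0 h1 (k - 6) (by omega)
  have hZ := summable_Z h0 h1
  have hYs : Summable fun s : Stk =>
      zk k ^ (rd s).mu * (if (rd s).e < k - 6 then (1 : ℝ) else 0) := by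
    refine Summable.of_nonneg_of_le (fun s => ?_) (fun s => ?_) hZ
    · split_ifs <;> positivity
    · have : 0 ≤ zk k ^ (rd s).mu := by positivity
      split_ifs
      · linarith
      · linarith
  set Y := ∑' s : Stk, zk k ^ (rd s).mu * (if (rd s).e < k - 6 then (1 : ℝ) else 0) with hYdef
  have hl : (((k - 6 : ℕ)) : ℝ) = (k : ℝ) - 6 := by
    rw [Nat.cast_sub (by omega)]; norm_num
  have h2 : ∑' s : Stk, (((k : ℝ) - 6) * (zk k ^ (rd s).mu -
      zk k ^ (rd s).mu * (if (rd s).e < k - 6 then (1 : ℝ) else 0))) ≤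
      ∑' s : Stk, zk k ^ (rd s).mu * ((rd s).e : ℝ) := by
    refine Summable.tsum_le_tsum (fun s => ?_) ((hZ.sub hYs).mul_left _) (summable_E h0 h1)
    have h6 : 0 ≤ zk k ^ (rd s).mu := by positivity
    split_ifs with h
    · have : (0 : ℝ) ≤ (rd s).e := Nat.cast_nonneg _
      have h9 : zk k ^ (rd s).mu - zk k ^ (rd s).mu * 1 = 0 := by ring
      rw [h9, mul_zero]
      positivity
    · have h8 : (((k - 6 : ℕ)) : ℝ) ≤ (rd s).e := by exact_mod_cast not_lt.1 h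
      rw [hl] at h8
      nlinarith
  rw [tsum_mul_left, Summable.tsum_sub hZ hYs, Z_zk k (by omega)] at h2
  have h3 : ((2 : ℝ)) ^ (k - 6) * 64 = 2 ^ k := by
    have : k = (k - 6) + 6 := by omega
    conv_rhs => rw [this, pow_add]
    norm_num
  have h4 : (0 : ℝ) < 2 ^ k := by positivity
  have h5 : 2 ^ k * (10 / 64) ≤ zk k * 2 ^ k - Y := by nlinarith
  have hk' : (12 : ℝ) ≤ k := by exact_mod_cast hk
  calc (k : ℝ) * 2 ^ k * (10 / 128) = (k / 2) * (2 ^ k * (10 / 64)) := by ring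
    _ ≤ ((k : ℝ) - 6) * (zk k * 2 ^ k - Y) := by
        apply mul_le_mul (by linarith) h5 (by positivity) (by linarith)
    _ ≤ _ := h2

/-- the rational main term -/
noncomputable def mainTerm (z : ℝ) : ℝ := 2 * z ^ 3 * (1 + z) / ((1 - 2 * z) ^ 2 * (1 - z))

theorem mainTerm_eq (h0 : 0 < z) (h1 : z < 1 / 2) :
    (1 + z) ^ 2 * ∑' s : Stk, z ^ (rd s).mu * ((rd s).w : ℝ) = mainTerm z := by
  unfold mainTerm
  have h2 : 0 < (1 - 2 * z) ^ 2 * (1 - z) := by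
    have : 0 < 1 - 2 * z := by linarith
    have : 0 < 1 - z := by linarith
    positivity
  rw [eq_div_iff h2.ne', ← T_eq h0 h1]
  ring

theorem estimate (k : ℕ) (hk : 12 ≤ k) :
    FF (zk k) ≠ ⊤ ∧ (k : ℝ) * 2 ^ k / 256 ≤ (FF (zk k)).toReal - mainTerm (zk k) ∧
      (FF (zk k)).toReal - mainTerm (zk k) ≤ 60 * ((k : ℝ) * 2 ^ k) := by
  have h14 := quarter_le_zk k (by omega)
  have h0 : 0 < zk k := by linarith
  have h1 := zk_lt k
  have hU := FF_upper h0 h1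
  have hLo := FF_lower h0 h1
  rw [mainTerm_eq h0 h1] at hU hLo
  have hfin : FF (zk k) ≠ ⊤ := ne_top_of_le_ne_top ENNReal.ofReal_ne_top hU
  have hm0 : 0 ≤ mainTerm (zk k) := by
    rw [← mainTerm_eq h0 h1]
    have : 0 ≤ ∑' s : Stk, zk k ^ (rd s).mu * ((rd s).w : ℝ) := tsum_nonneg fun s => by positivity
    positivity
  have hM := M_zk k (by omega)
  have hE := E_zk k hk
  have hZ := Z_zk k (by omega)
  rw [hZ] at hM hU
  have hk' : (12 : ℝ) ≤ k := by exact_mod_cast hk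
  have h4 : (0 : ℝ) < 2 ^ k := by positivity
  have h4' : (1 : ℝ) ≤ 2 ^ k := one_le_pow₀ (by norm_num)
  have hMn : 0 ≤ ∑' s : Stk, zk k ^ (rd s).mu * ((rd s).M : ℝ) :=
    tsum_nonneg fun s => by positivity
  refine ⟨hfin, ?_, ?_⟩
  · have h5 : mainTerm (zk k) + zk k ^ 2 * ∑' s : Stk, zk k ^ (rd s).mu * ((rd s).e : ℝ) ≤
        (FF (zk k)).toReal := by
      have := (ENNReal.ofReal_le_iff_le_toReal hfin).1 hLo
      exact this
    have h6 : (1 / 16 : ℝ) ≤ zk k ^ 2 := by nlinarith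
    have h7 : (1 / 16 : ℝ) * ((k : ℝ) * 2 ^ k * (10 / 128)) ≤
        zk k ^ 2 * ∑' s : Stk, zk k ^ (rd s).mu * ((rd s).e : ℝ) :=
      mul_le_mul h6 hE (by positivity) (by positivity)
    have h8 : 0 ≤ (k : ℝ) * 2 ^ k := by positivity
    linarith
  · have h5 : (FF (zk k)).toReal ≤ 36 + (mainTerm (zk k) +
        40 * (∑' s : Stk, zk k ^ (rd s).mu * ((rd s).M : ℝ) + zk k * 2 ^ k)) := by
      apply ENNReal.toReal_le_of_le_ofReal _ hU
      positivity
    have h6 : zk k * 2 ^ k ≤ 2 ^ k / 2 := by nlinarith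
    have h7 : ((k : ℝ) + 2) * (zk k * 2 ^ k) ≤ (k + 2) * (2 ^ k / 2) :=
      mul_le_mul_of_nonneg_left h6 (by positivity)
    have h8 : (FF (zk k)).toReal - mainTerm (zk k) ≤ 36 + 40 * ((k + 3) * (2 ^ k / 2)) := by
      linarith
    have h9 : (36 : ℝ) ≤ 36 * 2 ^ k := by linarith
    have h10 : (12 : ℝ) * 2 ^ k ≤ k * 2 ^ k := mul_le_mul_of_nonneg_right hk' h4.le
    linarith

end Pool.Agent.GrowthOR
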