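import Pool.Agent.GrowthOR.NonAlg

set_option autoImplicit false

/-!
# The growth series of `⟨x, u | u x⁻¹ u x⁻⁵⟩` is not algebraic
-/

namespace Pool.Agent.GrowthOR

open Polynomial Filter Topology
open scoped ENNReal

/-- size of the sphere of radius `k` -/
noncomputable def sph (k : ℕ) : ℕ := Nat.card {n : St // len n = k}

theorem FF_eq (z : ℝ) : FF z = ∑' k : ℕ, (sph k : ℝ≥0∞) * ENNReal.ofReal z ^ k := by
  unfold FF
  rw [← (Equiv.sigmaFiberEquiv len).tsum_eq, ENNReal.tsum_sigma']
  congr 1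
  ext k
  have hfin := finite_len k
  have : Fintype {n : St // len n = k} := Fintype.ofFinite _
  have h1 : ∀ b : {n : St // len n = k},
      ENNReal.ofReal z ^ len ((Equiv.sigmaFiberEquiv len) ⟨k, b⟩) = ENNReal.ofReal z ^ k := by
    intro b
    have : len ((Equiv.sigmaFiberEquiv len) ⟨k, b⟩) = k := b.2
    rw [this]
  simp only [h1]
  rw [tsum_fintype, Finset.sum_const, Finset.card_univ, nsmul_eq_mul]
  unfold sph
  rw [Nat.card_eq_fintype_card]

theorem hasVal_FF (z : ℝ) (h0 : 0 < z) (hfin : FF z ≠ ⊤) :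
    HasVal z (PowerSeries.mk fun k => ((sph k : ℕ) : ℚ)) (FF z).toReal := by
  rw [FF_eq] at hfin ⊢
  have h1 : ∀ k : ℕ, ((sph k : ℝ≥0∞) * ENNReal.ofReal z ^ k).toReal = (sph k : ℝ) * z ^ k := by
    intro k
    rw [ENNReal.toReal_mul, ENNReal.toReal_pow, ENNReal.toReal_ofReal h0.le,
      ENNReal.toReal_natCast]
  have h2 : ∀ k : ℕ, (sph k : ℝ≥0∞) * ENNReal.ofReal z ^ k ≠ ⊤ := by
    intro k
    exact ENNReal.mul_ne_top (ENNReal.natCast_ne_top _) (ENNReal.pow_ne_top ENNReal.ofReal_ne_top)
  have h3 : ∀ n : ℕ, ((PowerSeries.coeff n (PowerSeries.mk fun k => ((sph k : ℕ) : ℚ)) : ℚ) : ℝ) *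
      z ^ n = (sph n : ℝ) * z ^ n := by
    intro n
    rw [PowerSeries.coeff_mk]
    push_cast
    rfl
  constructor
  · have := ENNReal.summable_toReal hfin
    refine this.congr (fun n => ?_)
    rw [h3, h1, Real.norm_of_nonneg (by positivity)]
  · rw [ENNReal.tsum_toReal_eq h2]
    apply tsum_congr
    intro n
    rw [h3, h1]

/-- numerator and denominator of the main term -/
noncomputable def nP : ℝ[X] := 2 * X ^ 3 * (1 + X)
noncomputable def dP : ℝ[X] := (1 - 2 * X) ^ 2 * (1 - X)

theorem dP_eval (z : ℝ) : dP.eval z = (1 - 2 * z) ^ 2 * (1 - z) := by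
  simp [dP]

theorem nP_eval (z : ℝ) : nP.eval z = 2 * z ^ 3 * (1 + z) := by
  simp [nP]

theorem dP_ne : dP ≠ 0 := by
  intro h
  have := dP_eval 0
  rw [h] at this
  norm_num at this

theorem not_alg : ¬ ∃ P : ℚ[X][X], P ≠ 0 ∧
    Polynomial.eval₂ (Polynomial.coeToPowerSeries.ringHom)
      (PowerSeries.mk fun k : ℕ => ((sph k : ℕ) : ℚ)) P = 0 := by
  rintro ⟨P, hP, hP0⟩
  set d := P.natDegree with hd
  set R : ℝ[X][X] := ∑ i ∈ Finset.range (d + 1),
    C ((P.coeff i).map (algebraMap ℚ ℝ) * dP ^ (d - i)) * X ^ i with hR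
  have hRne : R ≠ 0 := by
    intro h
    have h1 : R.coeff d = (P.coeff d).map (algebraMap ℚ ℝ) := by
      rw [hR, Polynomial.finsetSum_coeff]
      rw [Finset.sum_eq_single d]
      · rw [Polynomial.coeff_C_mul_X_pow, if_pos rfl]
        simp
      · intro b _ hb
        rw [Polynomial.coeff_C_mul_X_pow, if_neg (Ne.symm hb)]
      · intro h; exact absurd (Finset.mem_range.2 (Nat.lt_succ_self d)) h
    rw [h, Polynomial.coeff_zero] at h1
    have h2 : P.coeff d = 0 := by
      have := (Polynomial.map_eq_zero (algebraMap ℚ ℝ)).1 h1.symm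
      exact this
    exact hP (leadingCoeff_eq_zero.1 h2)
  set q : ℝ[X][X] := C nP + C dP * X with hq
  set Q := R.comp q with hQ
  have hQne : Q ≠ 0 := by
    intro h
    rcases Polynomial.comp_eq_zero_iff.1 h with h1 | ⟨_, h1⟩
    · exact hRne h1
    · have h2 : q.coeff 1 = 0 := by
        rw [h1]
        simp
      rw [hq] at h2
      simp at h2
      exact dP_ne h2
  set η : ℕ → ℝ := fun k => (FF (zk k)).toReal - mainTerm (zk k) with hη
  refine no_relation Q hQne η (1 / 256) 60 (by norm_num) 12 (fun k hk => ?_) (fun k hk => ?_)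
  · obtain ⟨-, h2, h3⟩ := estimate k hk
    refine ⟨?_, h3⟩
    simp only [hη]
    linarith
  · obtain ⟨hfin, -, -⟩ := estimate k hk
    have h14 := quarter_le_zk k (by omega)
    have hz0 : 0 < zk k := by linarith
    have hz1 := zk_lt k
    have hval := (hasVal_FF (zk k) hz0 hfin).eval₂ P
    rw [hP0] at hval
    have h1 := hval.zero_unique
    set z := zk k
    set F := (FF z).toReal
    have e1 : ∑ j ∈ Finset.range (Q.natDegree + 1), (Q.coeff j).eval z * η k ^ j =
        Polynomial.eval₂ (Polynomial.evalRingHom z) (η k) Q := by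
      rw [Polynomial.eval₂_eq_sum_range]
      rfl
    have hD : (1 - 2 * z) ^ 2 * (1 - z) ≠ 0 := by
      have h5 : 0 < 1 - 2 * z := by linarith
      have h6 : 0 < 1 - z := by linarith
      positivity
    have e2 : Polynomial.eval₂ (Polynomial.evalRingHom z) (η k) q = dP.eval z * F := by
      rw [hq, Polynomial.eval₂_add, Polynomial.eval₂_mul, Polynomial.eval₂_C, Polynomial.eval₂_C,
        Polynomial.eval₂_X]
      show nP.eval z + dP.eval z * (F - mainTerm z) = dP.eval z * F
      have : dP.eval z * mainTerm z = nP.eval z := by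
        rw [dP_eval, nP_eval]
        unfold mainTerm
        exact mul_div_cancel₀ _ hD
      linear_combination -this
    rw [e1, hQ, Polynomial.eval₂_comp, e2, hR, Polynomial.eval₂_finsetSum]
    have e3 : ∀ i ∈ Finset.range (d + 1), Polynomial.eval₂ (Polynomial.evalRingHom z)
        (dP.eval z * F) (C ((P.coeff i).map (algebraMap ℚ ℝ) * dP ^ (d - i)) * X ^ i) =
        dP.eval z ^ d * (((P.coeff i).map (algebraMap ℚ ℝ)).eval z * F ^ i) := by
      intro i hi
      rw [Finset.mem_range] at hi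
      rw [Polynomial.eval₂_mul, Polynomial.eval₂_C, Polynomial.eval₂_X_pow]
      show ((P.coeff i).map (algebraMap ℚ ℝ) * dP ^ (d - i)).eval z * (dP.eval z * F) ^ i = _
      rw [Polynomial.eval_mul, Polynomial.eval_pow, mul_pow]
      have : dP.eval z ^ d = dP.eval z ^ (d - i) * dP.eval z ^ i := by
        rw [← pow_add]; congr 1; omega
      rw [this]
      ring
    rw [Finset.sum_congr rfl e3, ← Finset.mul_sum, h1, mul_zero]

end Pool.Agent.GrowthOR
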