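import Mathlib

set_option autoImplicit false

/-!
# Normal forms for the one-relator group `⟨x, u | u x⁻¹ u x⁻⁵⟩`

With `y = u x⁻¹` the group is `⟨x, y | y² = x⁴⟩`.  Every element is uniquely
`z^m x^c y x^{c₁} y ⋯ y x^{c_r}` with `z = x⁴`.
-/

namespace Pool.Agent.GrowthOR

open FreeGroup (of)

/-- stacks of turns: the last syllable (exponent `0..3`), then inner syllables (`1..3`) -/
inductive Stk : Type
  | bot (c : Fin 4) : Stk
  | push (s : Stk) (c : Fin 3) : Stk

/-- states: central exponent, stack, current syllable -/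
abbrev St := ℤ × Option Stk × Fin 4

/-- left multiplication by `x` -/
def stepX (n : St) : St := if n.2.2 = 3 then (n.1 + 1, n.2.1, 0) else (n.1, n.2.1, n.2.2 + 1)

/-- left multiplication by `x⁻¹` -/
def stepX' (n : St) : St := if n.2.2 = 0 then (n.1 - 1, n.2.1, 3) else (n.1, n.2.1, n.2.2 - 1)

/-- remove the top syllable -/
def popS : Stk → Option Stk × Fin 4
  | .bot c => (none, c)
  | .push s c => (some s, c.succ)

/-- left multiplication by `y` -/
def stepY : St → St
  | (m, none, c) => (m, some (.bot c), 0)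
  | (m, some s, c) =>
      Fin.cases (motive := fun _ => St) (m + 1, popS s) (fun c' => (m, some (.push s c'), 0)) c

/-- multiplication by a power of `z` -/
def shiftZ (k : ℤ) (n : St) : St := (n.1 + k, n.2)

theorem stepX_zero (m : ℤ) (s : Option Stk) : stepX (m, s, 0) = (m, s, 1) := rfl
theorem stepX_one (m : ℤ) (s : Option Stk) : stepX (m, s, 1) = (m, s, 2) := rfl
theorem stepX_two (m : ℤ) (s : Option Stk) : stepX (m, s, 2) = (m, s, 3) := rfl
theorem stepX_three (m : ℤ) (s : Option Stk) : stepX (m, s, 3) = (m + 1, s, 0) := rfl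

theorem stepY_none (m : ℤ) (c : Fin 4) : stepY (m, none, c) = (m, some (.bot c), 0) := rfl
theorem stepY_some_zero (m : ℤ) (s : Stk) : stepY (m, some s, 0) = (m + 1, popS s) := rfl
theorem stepY_some_succ (m : ℤ) (s : Stk) (c : Fin 3) :
    stepY (m, some s, c.succ) = (m, some (.push s c), 0) := rfl

theorem stepY_stepY (n : St) : stepY (stepY n) = shiftZ 1 n := by
  obtain ⟨m, s, c⟩ := n
  cases s with
  | none => rfl
  | some s =>
    refine Fin.cases ?_ (fun c' => ?_) c
    · rw [stepY_some_zero]
      cases s with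
      | bot c => rfl
      | push s c => rfl
    · rw [stepY_some_succ]
      rfl

theorem stepY_shiftZ (k : ℤ) (n : St) : stepY (shiftZ k n) = shiftZ k (stepY n) := by
  obtain ⟨m, s, c⟩ := n
  cases s with
  | none => rfl
  | some s =>
    refine Fin.cases ?_ (fun c' => ?_) c
    · show stepY (m + k, some s, 0) = shiftZ k (stepY (m, some s, 0))
      rw [stepY_some_zero, stepY_some_zero]
      show (m + k + 1, popS s) = (m + 1 + k, popS s)
      rw [add_right_comm]
    · rfl

theorem shiftZ_shiftZ (k l : ℤ) (n : St) : shiftZ k (shiftZ l n) = shiftZ (l + k) n := by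
  simp [shiftZ, add_assoc]

theorem shiftZ_zero (n : St) : shiftZ 0 n = n := by simp [shiftZ]

/-- the permutation `x` -/
def pX : Equiv.Perm St where
  toFun := stepX
  invFun := stepX'
  left_inv := by
    rintro ⟨m, s, c⟩
    fin_cases c <;> simp [stepX, stepX']
  right_inv := by
    rintro ⟨m, s, c⟩
    fin_cases c <;> simp [stepX, stepX']

/-- the permutation `y` -/
def pY : Equiv.Perm St where
  toFun := stepY
  invFun n := shiftZ (-1) (stepY n)
  left_inv n := by
    show shiftZ (-1) (stepY (stepY n)) = n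
    rw [stepY_stepY, shiftZ_shiftZ]
    simp [shiftZ_zero]
  right_inv n := by
    show stepY (shiftZ (-1) (stepY n)) = n
    rw [stepY_shiftZ, stepY_stepY, shiftZ_shiftZ]
    simp [shiftZ_zero]

theorem pX_pow_four (n : St) : (pX ^ 4) n = shiftZ 1 n := by
  obtain ⟨m, s, c⟩ := n
  show stepX (stepX (stepX (stepX (m, s, c)))) = shiftZ 1 (m, s, c)
  fin_cases c <;> rfl

theorem pY_pow_two : pY * pY = pX ^ 4 := by
  ext1 n
  rw [pX_pow_four]
  exact stepY_stepY n

theorem perm_apply_inv (p : Equiv.Perm St) (n : St) : p (p⁻¹ n) = n := p.apply_symm_apply n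
theorem perm_inv_apply (p : Equiv.Perm St) (n : St) : p⁻¹ (p n) = n := p.symm_apply_apply n

/-- the action of the free group -/
noncomputable def act : FreeGroup (Fin 2) →* Equiv.Perm St :=
  FreeGroup.lift ![pX, pY * pX]

theorem act_zero : act (of 0) = pX := by simp [act]
theorem act_one : act (of 1) = pY * pX := by simp [act]

/-- the relator -/
def rel : FreeGroup (Fin 2) := of 1 * (of 0)⁻¹ * of 1 * ((of 0)⁻¹) ^ 5

theorem act_rel : act rel = 1 := by
  unfold rel
  simp only [map_mul, map_inv, map_pow, act_zero, act_one]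
  have h : pY * pX * pX⁻¹ * (pY * pX) * pX⁻¹ ^ 5 = (pY * pY) * (pX ^ 4)⁻¹ := by group
  rw [h, pY_pow_two, mul_inv_cancel]

/-- the group -/
abbrev G := FreeGroup (Fin 2) ⧸ Subgroup.normalClosure ({rel} : Set (FreeGroup (Fin 2)))

theorem act_of_mk_eq {w w' : FreeGroup (Fin 2)}
    (h : (QuotientGroup.mk w : G) = QuotientGroup.mk w') : act w = act w' := by
  have h1 : w⁻¹ * w' ∈ Subgroup.normalClosure ({rel} : Set (FreeGroup (Fin 2))) :=
    QuotientGroup.eq.1 h
  have h2 : Subgroup.normalClosure ({rel} : Set (FreeGroup (Fin 2))) ≤ act.ker := by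
    apply Subgroup.normalClosure_le_normal
    rintro _ rfl
    exact act_rel
  have h3 : act (w⁻¹ * w') = 1 := h2 h1
  rw [map_mul, map_inv] at h3
  exact (inv_mul_eq_one.1 h3)

/-- the generators in `G` -/
def gx : G := QuotientGroup.mk (of 0)
def gu : G := QuotientGroup.mk (of 1)
def gy : G := gu * gx⁻¹
def gz : G := gx ^ 4

theorem gy_mul_gx : gy * gx = gu := by simp [gy]

theorem gy_sq : gy * gy = gz := by
  have h : gu * gx⁻¹ * gu * (gx⁻¹) ^ 5 = 1 := by
    have : (QuotientGroup.mk rel : G) = 1 :=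
      (QuotientGroup.eq_one_iff rel).2 (Subgroup.subset_normalClosure (by simp))
    exact this
  unfold gy gz
  have h2 : gu * gx⁻¹ * (gu * gx⁻¹) = (gu * gx⁻¹ * gu * (gx⁻¹) ^ 5) * gx ^ 4 := by group
  rw [h2, h, one_mul]

theorem gz_comm_gx : gz * gx = gx * gz := by
  unfold gz; group

theorem gz_comm_gy : gz * gy = gy * gz := by
  rw [← gy_sq, mul_assoc]

theorem gzpow_comm_gx (m : ℤ) : gz ^ m * gx = gx * gz ^ m :=
  (show Commute gz gx from gz_comm_gx).zpow_left m

theorem gzpow_comm_gy (m : ℤ) : gz ^ m * gy = gy * gz ^ m :=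
  (show Commute gz gy from gz_comm_gy).zpow_left m

/-- the element of `G` described by a stack -/
def nfS : Stk → G
  | .bot c => gy * gx ^ (c : ℕ)
  | .push s c => gy * (gx ^ ((c : ℕ) + 1) * nfS s)

def nfO : Option Stk → G
  | none => 1
  | some s => nfS s

/-- the element of `G` described by a state -/
def nf (n : St) : G := gz ^ n.1 * (gx ^ (n.2.2 : ℕ) * nfO n.2.1)

theorem nf_pX (n : St) : nf (pX n) = gx * nf n := by
  obtain ⟨m, s, c⟩ := n
  show nf (stepX (m, s, c)) = gx * nf (m, s, c)
  have key : ∀ k : ℕ, gz ^ m * (gx ^ (k + 1) * nfO s) = gx * (gz ^ m * (gx ^ k * nfO s)) := by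
    intro k
    rw [pow_succ', ← mul_assoc gx, ← gzpow_comm_gx]
    simp only [mul_assoc]
  fin_cases c
  · exact key 0
  · exact key 1
  · exact key 2
  · show gz ^ (m + 1) * (gx ^ 0 * nfO s) = gx * (gz ^ m * (gx ^ 3 * nfO s))
    rw [← key 3, zpow_add_one, pow_zero, one_mul, mul_assoc]
    rfl

theorem nf_pY (n : St) : nf (pY n) = gy * nf n := by
  obtain ⟨m, s, c⟩ := n
  show nf (stepY (m, s, c)) = gy * nf (m, s, c)
  cases s with
  | none =>
    show gz ^ m * (gx ^ 0 * (gy * gx ^ (c : ℕ))) = gy * (gz ^ m * (gx ^ (c : ℕ) * 1))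
    rw [pow_zero, one_mul, mul_one, ← mul_assoc, gzpow_comm_gy, mul_assoc]
  | some s =>
    refine Fin.cases ?_ (fun c' => ?_) c
    · rw [stepY_some_zero]
      cases s with
      | bot c =>
        show gz ^ (m + 1) * (gx ^ (c : ℕ) * 1) = gy * (gz ^ m * (gx ^ 0 * (gy * gx ^ (c : ℕ))))
        rw [pow_zero, one_mul, mul_one, zpow_add_one]
        have : gy * (gz ^ m * (gy * gx ^ (c : ℕ))) = (gy * gz ^ m) * gy * gx ^ (c : ℕ) := by
          simp only [mul_assoc]
        rw [this, ← gzpow_comm_gy, mul_assoc (gz ^ m) gy gy, gy_sq]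
      | push s c =>
        show gz ^ (m + 1) * (gx ^ ((c.succ : Fin 4) : ℕ) * nfS s) =
          gy * (gz ^ m * (gx ^ 0 * (gy * (gx ^ ((c : ℕ) + 1) * nfS s))))
        rw [pow_zero, one_mul, zpow_add_one, Fin.val_succ]
        have : gy * (gz ^ m * (gy * (gx ^ ((c : ℕ) + 1) * nfS s))) =
            (gy * gz ^ m) * gy * (gx ^ ((c : ℕ) + 1) * nfS s) := by
          simp only [mul_assoc]
        rw [this, ← gzpow_comm_gy, mul_assoc (gz ^ m) gy gy, gy_sq]
    · show gz ^ m * (gx ^ 0 * (gy * (gx ^ ((c' : ℕ) + 1) * nfS s))) =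
        gy * (gz ^ m * (gx ^ ((c'.succ : Fin 4) : ℕ) * nfS s))
      rw [pow_zero, one_mul, Fin.val_succ, ← mul_assoc, gzpow_comm_gy, mul_assoc]

theorem nf_act (w : FreeGroup (Fin 2)) : ∀ n : St, nf (act w n) = QuotientGroup.mk w * nf n := by
  have hinv : ∀ (g : G) (p : Equiv.Perm St), (∀ n, nf (p n) = g * nf n) →
      ∀ n, nf (p⁻¹ n) = g⁻¹ * nf n := by
    intro g p h n
    have := h (p⁻¹ n)
    rw [perm_apply_inv] at this
    rw [this, inv_mul_cancel_left]
  have hof : ∀ i : Fin 2, ∀ n, nf (act (of i) n) = QuotientGroup.mk (of i) * nf n := by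
    intro i n
    fin_cases i
    · show nf (act (of 0) n) = gx * nf n
      rw [act_zero, nf_pX]
    · show nf (act (of 1) n) = gu * nf n
      rw [act_one, Equiv.Perm.mul_apply, nf_pY, nf_pX, ← mul_assoc, gy_mul_gx]
  induction w using FreeGroup.induction_on with
  | C1 => intro n; simp
  | of i => exact hof i
  | inv_of i _ =>
    intro n
    have := hinv (QuotientGroup.mk (of i)) (act (of i)) (hof i) n
    rw [map_inv]
    exact this
  | mul a b ha hb =>
    intro n
    rw [map_mul, Equiv.Perm.mul_apply, ha, hb, ← mul_assoc]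
    rfl

/-- the state of the identity -/
def base : St := (0, none, 0)

theorem nf_base : nf base = 1 := by
  simp [nf, base, nfO]

theorem mk_eq_nf (w : FreeGroup (Fin 2)) : (QuotientGroup.mk w : G) = nf (act w base) := by
  rw [nf_act, nf_base, mul_one]

theorem exists_word (n : St) : ∃ w, act w base = n := by
  let R : Set St := {n | ∃ w, act w base = n}
  have hX : ∀ n ∈ R, pX n ∈ R := by
    rintro _ ⟨w, rfl⟩
    exact ⟨of 0 * w, by rw [map_mul, act_zero]; rfl⟩
  have hX' : ∀ n ∈ R, pX⁻¹ n ∈ R := by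
    rintro _ ⟨w, rfl⟩
    exact ⟨(of 0)⁻¹ * w, by rw [map_mul, map_inv, act_zero]; rfl⟩
  have hY : ∀ n ∈ R, pY n ∈ R := by
    rintro _ ⟨w, rfl⟩
    refine ⟨of 1 * (of 0)⁻¹ * w, ?_⟩
    rw [map_mul, map_mul, map_inv, act_zero, act_one]
    simp
  have hZ : ∀ n ∈ R, shiftZ 1 n ∈ R := by
    intro n hn
    rw [← pX_pow_four]
    exact hX _ (hX _ (hX _ (hX _ hn)))
  have hZ' : ∀ n ∈ R, shiftZ (-1) n ∈ R := by
    intro n hn
    have h1 : shiftZ (-1) n = pX⁻¹ (pX⁻¹ (pX⁻¹ (pX⁻¹ n))) := by
      have h2 : pX (pX (pX (pX (shiftZ (-1) n)))) = n := by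
        have h5 : (pX ^ 4) (shiftZ (-1) n) = n := by
          rw [pX_pow_four, shiftZ_shiftZ]
          simp [shiftZ_zero]
        exact h5
      have h3 : ∀ a b : St, pX a = b → a = pX⁻¹ b := by
        intro a b h; rw [← h]; simp
      exact h3 _ _ (h3 _ _ (h3 _ _ (h3 _ _ h2)))
    rw [h1]
    exact hX' _ (hX' _ (hX' _ (hX' _ hn)))
  have hZm : ∀ (k : ℤ) (n : St), n ∈ R → shiftZ k n ∈ R := by
    intro k n hn
    induction k with
    | zero => simpa [shiftZ_zero] using hn
    | succ k ih => rw [← shiftZ_shiftZ]; exact hZ _ ih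
    | pred k ih =>
      have : (-(k : ℤ) - 1) = -(k : ℤ) + (-1) := by ring
      rw [this, ← shiftZ_shiftZ]; exact hZ' _ ih
  have hc : ∀ (m : ℤ) (s : Option Stk), (0, s, 0) ∈ R → ∀ c, (m, s, c) ∈ R := by
    intro m s h c
    have h0 : (m, s, (0 : Fin 4)) ∈ R := by
      have := hZm m _ h
      simpa [shiftZ] using this
    fin_cases c
    · exact h0
    · exact hX _ h0
    · exact hX _ (hX _ h0)
    · exact hX _ (hX _ (hX _ h0))
  have hnone : ∀ m c, (m, (none : Option Stk), c) ∈ R := by
    intro m c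
    exact hc m none ⟨1, by simp [base]⟩ c
  have hsome : ∀ (s : Stk) m c, (m, some s, c) ∈ R := by
    intro s
    induction s with
    | bot c0 => intro m c; exact hc m _ (hY _ (hnone 0 c0)) c
    | push s c0 ih => intro m c; exact hc m _ (hY _ (ih 0 c0.succ)) c
  obtain ⟨m, s, c⟩ := n
  cases s with
  | none => exact hnone m c
  | some s => exact hsome s m c

/-- word length of a state -/
noncomputable def len (n : St) : ℕ := sInf {l | ∃ w, act w base = n ∧ (FreeGroup.toWord w).length = l}

theorem len_spec (n : St) : ∃ w, act w base = n ∧ (FreeGroup.toWord w).length = len n := by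
  have hne : {l | ∃ w, act w base = n ∧ (FreeGroup.toWord w).length = l}.Nonempty := by
    obtain ⟨w, hw⟩ := exists_word n
    exact ⟨_, w, hw, rfl⟩
  exact Nat.sInf_mem hne

theorem len_le {n : St} {w : FreeGroup (Fin 2)} (h : act w base = n) :
    len n ≤ (FreeGroup.toWord w).length := Nat.sInf_le ⟨w, h, rfl⟩

theorem frozen_iff (w0 : FreeGroup (Fin 2)) (k : ℕ) :
    (∃ w : FreeGroup (Fin 2), (QuotientGroup.mk w : G) = QuotientGroup.mk w0 ∧
      (FreeGroup.toWord w).length = k ∧
      ∀ w' : FreeGroup (Fin 2), (QuotientGroup.mk w' : G) = QuotientGroup.mk w0 →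
        k ≤ (FreeGroup.toWord w').length) ↔ len (act w0 base) = k := by
  constructor
  · rintro ⟨w, h1, h2, h3⟩
    apply le_antisymm
    · rw [← h2]; exact len_le (by rw [act_of_mk_eq h1])
    · obtain ⟨w', h4, h5⟩ := len_spec (act w0 base)
      rw [← h5]
      exact h3 w' (by rw [mk_eq_nf, mk_eq_nf w0, h4])
  · rintro rfl
    obtain ⟨w', h4, h5⟩ := len_spec (act w0 base)
    refine ⟨w', by rw [mk_eq_nf, mk_eq_nf w0, h4], h5, ?_⟩
    intro w'' h6
    exact len_le (by rw [act_of_mk_eq h6])

theorem card_eq (k : ℕ) :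
    Nat.card {g : G // ∃ w : FreeGroup (Fin 2), (QuotientGroup.mk w : G) = g ∧
      (FreeGroup.toWord w).length = k ∧
      ∀ w' : FreeGroup (Fin 2), (QuotientGroup.mk w' : G) = g →
        k ≤ (FreeGroup.toWord w').length} = Nat.card {n : St // len n = k} := by
  symm
  apply Nat.card_congr
  refine Equiv.ofBijective (fun n => ⟨nf n.1, ?_⟩) ⟨?_, ?_⟩
  · obtain ⟨n, hn⟩ := n
    obtain ⟨w0, rfl⟩ := exists_word n
    have := (frozen_iff w0 k).2 hn
    rw [mk_eq_nf w0] at this
    exact this
  · rintro ⟨n, hn⟩ ⟨n', hn'⟩ h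
    have h1 : nf n = nf n' := by simpa using h
    obtain ⟨w, rfl⟩ := exists_word n
    obtain ⟨w', rfl⟩ := exists_word n'
    rw [← mk_eq_nf, ← mk_eq_nf] at h1
    apply Subtype.ext
    show act w base = act w' base
    rw [act_of_mk_eq h1]
  · rintro ⟨g, hg⟩
    obtain ⟨w0, rfl⟩ := QuotientGroup.mk_surjective g
    refine ⟨⟨act w0 base, (frozen_iff w0 k).1 hg⟩, ?_⟩
    apply Subtype.ext
    exact (mk_eq_nf w0).symm

/-- one letter changes the length by at most one -/
theorem len_act_le (v : FreeGroup (Fin 2)) (hv : (FreeGroup.toWord v).length ≤ 1) (n : St) :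
    len (act v n) ≤ len n + 1 := by
  obtain ⟨w, h1, h2⟩ := len_spec n
  have h3 : act (v * w) base = act v n := by rw [map_mul, ← h1]; rfl
  have h4 : FreeGroup.norm (v * w) ≤ FreeGroup.norm v + FreeGroup.norm w :=
    FreeGroup.norm_mul_le v w
  have h5 : (FreeGroup.toWord (v * w)).length ≤
      (FreeGroup.toWord v).length + (FreeGroup.toWord w).length := h4
  have := len_le h3
  omega

theorem len_pX (n : St) : len (pX n) ≤ len n + 1 := by
  have := len_act_le (of 0) (by simp [FreeGroup.toWord_of]) n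
  rwa [act_zero] at this

theorem len_pX' (n : St) : len n ≤ len (pX n) + 1 := by
  have := len_act_le (of 0)⁻¹ (by simp [FreeGroup.toWord_inv]) (pX n)
  rw [map_inv, act_zero] at this
  simpa using this

theorem len_pU (n : St) : len (pY (pX n)) ≤ len n + 1 := by
  have := len_act_le (of 1) (by simp [FreeGroup.toWord_of]) n
  rwa [act_one] at this

theorem len_pU' (n : St) : len n ≤ len (pY (pX n)) + 1 := by
  have := len_act_le (of 1)⁻¹ (by simp [FreeGroup.toWord_inv]) (pY (pX n))
  rw [map_inv, act_one] at this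
  have h2 : (pY * pX)⁻¹ (pY (pX n)) = n := perm_inv_apply (pY * pX) n
  rw [h2] at this
  exact this

theorem len_base : len base = 0 := by
  have := len_le (n := base) (w := 1) (by simp)
  simpa using this

/-- a Lipschitz function is a lower bound for the length -/
theorem le_len (C : St → ℤ) (h0 : C base ≤ 0) (hX : ∀ n, |C (pX n) - C n| ≤ 1)
    (hU : ∀ n, |C (pY (pX n)) - C n| ≤ 1) (n : St) : C n ≤ len n := by
  have key : ∀ L : List (Fin 2 × Bool), C (act (FreeGroup.mk L) base) ≤ L.length := by
    intro L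
    induction L with
    | nil =>
      have h1 : act (FreeGroup.mk []) = 1 := map_one act
      rw [h1]
      exact h0
    | cons a L ih =>
      obtain ⟨i, b⟩ := a
      have h1 : FreeGroup.mk ((i, b) :: L) = FreeGroup.mk [(i, b)] * FreeGroup.mk L := by
        rw [FreeGroup.mul_mk]; rfl
      rw [h1, map_mul, Equiv.Perm.mul_apply]
      set n := act (FreeGroup.mk L) base
      have h2 : |C (act (FreeGroup.mk [(i, b)]) n) - C n| ≤ 1 := by
        cases b with
        | true =>
          have : FreeGroup.mk [(i, true)] = of i := rfl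
          rw [this]
          fin_cases i
          · show |C (act (of 0) n) - C n| ≤ 1
            rw [act_zero]; exact hX n
          · show |C (act (of 1) n) - C n| ≤ 1
            rw [act_one]; exact hU n
        | false =>
          have : FreeGroup.mk [(i, false)] = (of i)⁻¹ := rfl
          rw [this, map_inv]
          fin_cases i
          · show |C ((act (of 0))⁻¹ n) - C n| ≤ 1
            rw [act_zero]
            have := hX (pX⁻¹ n)
            rw [perm_apply_inv] at this
            rwa [abs_sub_comm]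
          · show |C ((act (of 1))⁻¹ n) - C n| ≤ 1
            rw [act_one]
            have := hU ((pY * pX)⁻¹ n)
            rw [← Equiv.Perm.mul_apply, perm_apply_inv] at this
            rwa [abs_sub_comm]
      have h3 := (abs_le.1 h2).2
      push_cast [List.length_cons]
      linarith
  obtain ⟨w, h1, h2⟩ := len_spec n
  have := key (FreeGroup.toWord w)
  rw [FreeGroup.mk_toWord, h1, h2] at this
  exact this

/-- spheres are finite -/
theorem finite_len (k : ℕ) : Finite {n : St // len n = k} := by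
  have h1 : Finite {L : List (Fin 2 × Bool) // L.length = k} := List.finite_length_eq _ k
  have : Function.Surjective (fun L : {L : List (Fin 2 × Bool) // L.length = k} =>
      act (FreeGroup.mk L.1) base) → True := fun _ => trivial
  classical
  let f : {n : St // len n = k} → {L : List (Fin 2 × Bool) // L.length = k} := fun n =>
    ⟨FreeGroup.toWord (Classical.choose (len_spec n.1)), by
      have := (Classical.choose_spec (len_spec n.1)).2
      rw [this, n.2]⟩
  apply Finite.of_injective f
  intro a b hab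
  have h2 : FreeGroup.toWord (Classical.choose (len_spec a.1)) =
      FreeGroup.toWord (Classical.choose (len_spec b.1)) := congrArg Subtype.val hab
  have h3 := FreeGroup.toWord_injective h2
  apply Subtype.ext
  rw [← (Classical.choose_spec (len_spec a.1)).1, ← (Classical.choose_spec (len_spec b.1)).1, h3]

end Pool.Agent.GrowthOR
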