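import Pool.Agent.GrowthOR.Data

set_option autoImplicit false

/-!
# A lower bound for the word length
-/

namespace Pool.Agent.GrowthOR

/-- values at the four corners of a square from the values at the entry edge -/
def L (f g : ℤ → ℤ) (c : Fin 4) (m : ℤ) : ℤ :=
  match c with
  | 0 => g m
  | 1 => min (g m + 1) (f (m + 1) + 2)
  | 2 => min (f (m + 1) + 1) (g m + 2)
  | 3 => f (m + 1)

/-- values at the next entry edge from the values at the exit edge -/
def nx (p q : ℤ → ℤ) : (ℤ → ℤ) × (ℤ → ℤ) :=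
  (fun m => min (p (m + 1) + 1) (q m + 2), fun m => min (q m + 1) (p (m + 1) + 2))

def f0 (m : ℤ) : ℤ := 2 * |m| + 1
def g0 (m : ℤ) : ℤ := 2 * |m|

/-- values at the entry edge of a square -/
def ent : Stk → (ℤ → ℤ) × (ℤ → ℤ)
  | .bot c => Fin.cases (motive := fun _ => (ℤ → ℤ) × (ℤ → ℤ)) (nx g0 f0)
      (fun c' => nx (L f0 g0 c'.succ) (L f0 g0 c'.castSucc)) c
  | .push s c => nx (L (ent s).1 (ent s).2 c.succ) (L (ent s).1 (ent s).2 c.castSucc)

def entO : Option Stk → (ℤ → ℤ) × (ℤ → ℤ)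
  | none => (f0, g0)
  | some s => ent s

/-- the lower bound function -/
def lowC (n : St) : ℤ := L (entO n.2.1).1 (entO n.2.1).2 n.2.2 n.1

/-- `2`-Lipschitz -/
def Lip (p : ℤ → ℤ) : Prop := ∀ m, |p (m + 1) - p m| ≤ 2

/-- pairs of functions at an edge -/
def Good (p q : ℤ → ℤ) : Prop := Lip p ∧ Lip q ∧ ∀ m, |p m - q m| ≤ 1

theorem Lip.L {f g : ℤ → ℤ} (hf : Lip f) (hg : Lip g) (c : Fin 4) : Lip (L f g c) := by
  intro m
  have h1 := abs_le.1 (hf m)
  have h2 := abs_le.1 (hf (m + 1))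
  have h3 := abs_le.1 (hg m)
  rw [abs_le]
  fin_cases c <;> simp only [GrowthOR.L] <;> constructor <;> omega

theorem good_nx {p q : ℤ → ℤ} (hp : Lip p) (hq : Lip q) : Good (nx p q).1 (nx p q).2 := by
  refine ⟨fun m => ?_, fun m => ?_, fun m => ?_⟩ <;>
  · have h1 := abs_le.1 (hp m)
    have h2 := abs_le.1 (hp (m + 1))
    have h3 := abs_le.1 (hq m)
    rw [abs_le]
    simp only [nx]
    constructor <;> omega

theorem lip_f0 : Lip f0 := by
  intro m
  unfold f0
  rw [abs_le]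
  rcases abs_cases m with ⟨h1, _⟩ | ⟨h1, _⟩ <;> rcases abs_cases (m + 1) with ⟨h2, _⟩ | ⟨h2, _⟩ <;>
    constructor <;> omega

theorem lip_g0 : Lip g0 := by
  intro m
  unfold g0
  rw [abs_le]
  rcases abs_cases m with ⟨h1, _⟩ | ⟨h1, _⟩ <;> rcases abs_cases (m + 1) with ⟨h2, _⟩ | ⟨h2, _⟩ <;>
    constructor <;> omega

theorem good_f0_g0 : Good f0 g0 := by
  refine ⟨lip_f0, lip_g0, fun m => ?_⟩
  unfold f0 g0
  rw [abs_le]
  constructor <;> omega

theorem good_ent (s : Stk) : Good (ent s).1 (ent s).2 := by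
  induction s with
  | bot c =>
    unfold ent
    refine Fin.cases ?_ (fun c' => ?_) c
    · exact good_nx lip_g0 lip_f0
    · exact good_nx (lip_f0.L lip_g0 _) (lip_f0.L lip_g0 _)
  | push s c ih =>
    exact good_nx (ih.1.L ih.2.1 _) (ih.1.L ih.2.1 _)

theorem good_entO (s : Option Stk) : Good (entO s).1 (entO s).2 := by
  cases s with
  | none => exact good_f0_g0
  | some s => exact good_ent s

/-- consecutive corners -/
theorem L_succ {f g : ℤ → ℤ} (h : Good f g) (c : Fin 3) (m : ℤ) :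
    |L f g c.succ m - L f g c.castSucc m| ≤ 1 := by
  have h1 := abs_le.1 (h.1 m)
  have h3 := abs_le.1 (h.2.2 m)
  rw [abs_le]
  fin_cases c
  · show -1 ≤ L f g 1 m - L f g 0 m ∧ L f g 1 m - L f g 0 m ≤ 1
    simp only [L]; constructor <;> omega
  · show -1 ≤ L f g 2 m - L f g 1 m ∧ L f g 2 m - L f g 1 m ≤ 1
    simp only [L]; constructor <;> omega
  · show -1 ≤ L f g 3 m - L f g 2 m ∧ L f g 3 m - L f g 2 m ≤ 1
    simp only [L]; constructor <;> omega

theorem L_wrap {f g : ℤ → ℤ} (h : Good f g) (m : ℤ) :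
    |L f g 0 (m + 1) - L f g 3 m| ≤ 1 := by
  have h3 := abs_le.1 (h.2.2 (m + 1))
  rw [abs_le]
  simp only [L]; constructor <;> omega

/-- crossing a face along its right side -/
theorem nx_right {p q : ℤ → ℤ} (h : Good p q) (m : ℤ) : |(nx p q).2 m - q m| ≤ 1 := by
  have h1 := abs_le.1 (h.1 m)
  have h3 := abs_le.1 (h.2.2 m)
  rw [abs_le]
  simp only [nx]; constructor <;> omega

/-- crossing a face along its left side -/
theorem nx_left {p q : ℤ → ℤ} (h : Good p q) (m : ℤ) : |(nx p q).1 m - p (m + 1)| ≤ 1 := by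
  have h1 := abs_le.1 (h.1 m)
  have h3 := abs_le.1 (h.2.2 m)
  rw [abs_le]
  simp only [nx]; constructor <;> omega

theorem good_exit {f g : ℤ → ℤ} (h : Good f g) (c : Fin 3) :
    Good (L f g c.succ) (L f g c.castSucc) :=
  ⟨h.1.L h.2.1 _, h.1.L h.2.1 _, L_succ h c⟩

theorem good_g0_f0 : Good g0 f0 := by
  refine ⟨lip_g0, lip_f0, fun m => ?_⟩
  rw [abs_sub_comm]
  exact good_f0_g0.2.2 m

theorem lowC_pX (n : St) : |lowC (pX n) - lowC n| ≤ 1 := by
  obtain ⟨m, s, c⟩ := n
  show |lowC (stepX (m, s, c)) - lowC (m, s, c)| ≤ 1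
  have h := good_entO s
  fin_cases c
  · exact L_succ h 0 m
  · exact L_succ h 1 m
  · exact L_succ h 2 m
  · exact L_wrap h m

theorem ent_bot_zero : ent (.bot 0) = nx g0 f0 := rfl
theorem ent_bot_succ (c : Fin 3) :
    ent (.bot c.succ) = nx (L f0 g0 c.succ) (L f0 g0 c.castSucc) := rfl

theorem lowC_pU (n : St) : |lowC (pY (pX n)) - lowC n| ≤ 1 := by
  obtain ⟨m, s, c⟩ := n
  show |lowC (stepY (stepX (m, s, c))) - lowC (m, s, c)| ≤ 1
  -- the three corners leading forward
  have fwd : ∀ c' : Fin 3, |lowC (stepY (m, s, c'.succ)) - lowC (m, s, c'.castSucc)| ≤ 1 := by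
    intro c'
    cases s with
    | none =>
      show |(ent (.bot c'.succ)).2 m - L f0 g0 c'.castSucc m| ≤ 1
      rw [ent_bot_succ]
      exact nx_right (good_exit good_f0_g0 c') m
    | some s =>
      show |(ent (.push s c')).2 m - L (ent s).1 (ent s).2 c'.castSucc m| ≤ 1
      exact nx_right (good_exit (good_ent s) c') m
  fin_cases c
  · exact fwd 0
  · exact fwd 1
  · exact fwd 2
  · cases s with
    | none =>
      show |(ent (.bot 0)).2 (m + 1) - f0 (m + 1)| ≤ 1
      rw [ent_bot_zero]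
      exact nx_right good_g0_f0 (m + 1)
    | some s =>
      cases s with
      | bot c'' =>
        show |L f0 g0 c'' (m + 1 + 1) - (ent (.bot c'')).1 (m + 1)| ≤ 1
        rw [abs_sub_comm]
        refine Fin.cases ?_ (fun c' => ?_) c''
        · exact nx_left good_g0_f0 (m + 1)
        · exact nx_left (good_exit good_f0_g0 c') (m + 1)
      | push s c'' =>
        show |L (ent s).1 (ent s).2 c''.succ (m + 1 + 1) - (ent (.push s c'')).1 (m + 1)| ≤ 1
        rw [abs_sub_comm]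
        exact nx_left (good_exit (good_ent s) c'') (m + 1)

theorem lowC_le_len (n : St) : lowC n ≤ len n := by
  refine le_len lowC ?_ lowC_pX lowC_pU n
  show g0 0 ≤ 0
  simp [g0]

/-! ### explicit lower bounds -/

/-- the left end is closer -/
def EL (K : ℤ) (p q : ℤ → ℤ) (μ w n l : ℤ) : Prop :=
  ∀ m, μ ≤ p m ∧ μ + 1 ≤ q m ∧
    2 * (m - (l + w)) ≤ K * (p m - μ) ∧ 2 * (l - m) ≤ K * (p m - μ) ∧
    2 * (m - (l + w) - n) ≤ K * (q m - μ - 1) ∧ 2 * (l - m) ≤ K * (q m - μ - 1)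

/-- the right end is closer -/
def ER (K : ℤ) (p q : ℤ → ℤ) (μ w n l : ℤ) : Prop :=
  ∀ m, μ ≤ q m ∧ μ + 1 ≤ p m ∧
    2 * (m - (l + w)) ≤ K * (q m - μ) ∧ 2 * (l - m) ≤ K * (q m - μ) ∧
    2 * (m - (l + w)) ≤ K * (p m - μ - 1) ∧ 2 * (l - n - m) ≤ K * (p m - μ - 1)

theorem min_bound {K a b μ x : ℤ} (ha : x ≤ K * (a - μ)) (hb : x ≤ K * (b - μ)) :
    x ≤ K * (min a b - μ) := by
  rcases min_choice a b with h | h <;> rw [h] <;> assumption

theorem min_bound' {K a b μ x : ℤ} (ha : x ≤ K * (a - μ - 1)) (hb : x ≤ K * (b - μ - 1)) :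
    x ≤ K * (min a b - μ - 1) := by
  rcases min_choice a b with h | h <;> rw [h] <;> assumption

theorem two_le_datM (s : Stk) : 2 ≤ (dat s).M ∧ (dat s).n ≤ (dat s).M := by
  induction s with
  | bot c => fin_cases c <;> simp [dat, datBot]
  | push s c ih =>
    have h : dat (.push s c) = (dat s).step c := rfl
    rw [h]
    generalize dat s = d at ih
    obtain ⟨h1, h2⟩ := ih
    obtain ⟨l, mu, n, w, M, el, er, lam⟩ := d
    cases l <;> fin_cases c <;> simp [Dat.step] at h1 h2 ⊢ <;> omega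

theorem EL.nx {K μ w n l : ℤ} {p q : ℤ → ℤ} (h : EL K p q μ w n l) (hn : 0 ≤ n)
    (hK : n + 1 ≤ K) : EL K (nx p q).1 (nx p q).2 (μ + 1) w (n + 1) (l - 1) := by
  intro m
  obtain ⟨a1, -, a3, a4, -, -⟩ := h (m + 1)
  obtain ⟨-, b2, -, -, b5, b6⟩ := h m
  have hK0 : 0 ≤ K := by linarith
  simp only [GrowthOR.nx]
  refine ⟨?_, ?_, ?_, ?_, ?_, ?_⟩
  · rw [le_min_iff]; constructor <;> linarith
  · rw [le_min_iff]; constructor <;> linarith
  · apply min_bound <;> nlinarith
  · apply min_bound <;> nlinarith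
  · apply min_bound' <;> nlinarith
  · apply min_bound' <;> nlinarith

theorem ER.nx {K μ w n l : ℤ} {p q : ℤ → ℤ} (h : ER K p q μ w n l) (hn : 0 ≤ n)
    (hK : n + 1 ≤ K) : ER K (nx p q).1 (nx p q).2 (μ + 1) w (n + 1) l := by
  intro m
  obtain ⟨-, a2, -, -, a5, a6⟩ := h (m + 1)
  obtain ⟨b1, -, b3, b4, -, -⟩ := h m
  have hK0 : 0 ≤ K := by linarith
  simp only [GrowthOR.nx]
  refine ⟨?_, ?_, ?_, ?_, ?_, ?_⟩
  · rw [le_min_iff]; constructor <;> linarith
  · rw [le_min_iff]; constructor <;> linarith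
  · apply min_bound <;> nlinarith
  · apply min_bound <;> nlinarith
  · apply min_bound' <;> nlinarith
  · apply min_bound' <;> nlinarith

/-- turn to the left, left end closer -/
theorem EL.left {K μ w n l : ℤ} {f g : ℤ → ℤ} (h : EL K f g μ w n l) (hn : 0 ≤ n)
    (hK : n + 1 ≤ K) : EL K (L f g 3) (L f g 2) μ w 0 (l - 1) := by
  intro m
  obtain ⟨a1, -, a3, a4, -, -⟩ := h (m + 1)
  obtain ⟨-, b2, -, -, b5, b6⟩ := h m
  have hK0 : 0 ≤ K := by linarith
  simp only [L]
  refine ⟨?_, ?_, ?_, ?_, ?_, ?_⟩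
  · linarith
  · rw [le_min_iff]; constructor <;> linarith
  · linarith
  · linarith
  · apply min_bound' <;> nlinarith
  · apply min_bound' <;> nlinarith

/-- turn to the right, left end closer -/
theorem EL.right {K μ w n l : ℤ} {f g : ℤ → ℤ} (h : EL K f g μ w n l) (hn : 0 ≤ n)
    (hK : n + 1 ≤ K) : ER K (L f g 1) (L f g 0) (μ + 1) (w + n) 1 l := by
  intro m
  obtain ⟨a1, -, a3, a4, -, -⟩ := h (m + 1)
  obtain ⟨-, b2, -, -, b5, b6⟩ := h m
  have hK0 : 0 ≤ K := by linarith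
  simp only [L]
  refine ⟨?_, ?_, ?_, ?_, ?_, ?_⟩
  · linarith
  · rw [le_min_iff]; constructor <;> linarith
  · nlinarith
  · nlinarith
  · apply min_bound' <;> nlinarith
  · apply min_bound' <;> nlinarith

/-- turn to the right, right end closer -/
theorem ER.right {K μ w n l : ℤ} {f g : ℤ → ℤ} (h : ER K f g μ w n l) (hn : 0 ≤ n)
    (hK : n + 1 ≤ K) : ER K (L f g 1) (L f g 0) μ w 0 l := by
  intro m
  obtain ⟨-, a2, -, -, a5, a6⟩ := h (m + 1)
  obtain ⟨b1, -, b3, b4, -, -⟩ := h m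
  have hK0 : 0 ≤ K := by linarith
  simp only [L]
  refine ⟨?_, ?_, ?_, ?_, ?_, ?_⟩
  · linarith
  · rw [le_min_iff]; constructor <;> linarith
  · linarith
  · linarith
  · apply min_bound' <;> nlinarith
  · apply min_bound' <;> nlinarith

/-- turn to the left, right end closer -/
theorem ER.left {K μ w n l : ℤ} {f g : ℤ → ℤ} (h : ER K f g μ w n l) (hn : 0 ≤ n)
    (hK : n + 1 ≤ K) : EL K (L f g 3) (L f g 2) (μ + 1) (w + n) 1 (l - n - 1) := by
  intro m
  obtain ⟨-, a2, -, -, a5, a6⟩ := h (m + 1)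
  obtain ⟨b1, -, b3, b4, -, -⟩ := h m
  have hK0 : 0 ≤ K := by linarith
  simp only [L]
  refine ⟨?_, ?_, ?_, ?_, ?_, ?_⟩
  · linarith
  · rw [le_min_iff]; constructor <;> linarith
  · nlinarith
  · nlinarith
  · apply min_bound' <;> nlinarith
  · apply min_bound' <;> nlinarith

theorem L_straight (f g : ℤ → ℤ) : (L f g 2, L f g 1) = nx f g := rfl

/-- the invariant -/
def Inv (K : ℤ) (d : Dat) (p q : ℤ → ℤ) : Prop :=
  if d.lft then EL K p q d.mu d.w d.n d.lam else ER K p q d.mu d.w d.n d.lam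

theorem inv_base (K : ℤ) (hK : 1 ≤ K) : ER K f0 g0 0 0 0 0 := by
  intro m
  unfold f0 g0
  have h1 := abs_nonneg m
  have h2 := le_abs_self m
  have h3 := neg_abs_le m
  refine ⟨?_, ?_, ?_, ?_, ?_, ?_⟩ <;> nlinarith

theorem inv_base' (K : ℤ) (hK : 1 ≤ K) : EL K g0 f0 0 0 0 0 := by
  intro m
  unfold f0 g0
  have h1 := abs_nonneg m
  have h2 := le_abs_self m
  have h3 := neg_abs_le m
  refine ⟨?_, ?_, ?_, ?_, ?_, ?_⟩ <;> nlinarith

theorem inv_ent (K : ℤ) (s : Stk) (hK : ((dat s).M : ℤ) + 2 ≤ K) :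
    Inv K (dat s) (ent s).1 (ent s).2 := by
  induction s with
  | bot c =>
    have hK' : (4 : ℤ) ≤ K := by
      have := (two_le_datM (.bot c)).1
      have h2 : (2 : ℤ) ≤ (dat (.bot c)).M := by exact_mod_cast this
      linarith
    fin_cases c
    · have := (inv_base' K (by linarith)).nx le_rfl (by linarith)
      exact this
    · have := ((inv_base K (by linarith)).right le_rfl (by linarith)).nx le_rfl (by linarith)
      exact this
    · have := ((inv_base K (by linarith)).nx le_rfl (by linarith)).nx (by norm_num) (by linarith)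
      exact this
    · have := ((inv_base K (by linarith)).left le_rfl (by linarith)).nx (by norm_num) (by linarith)
      exact this
  | push s c ih =>
    have h : dat (.push s c) = (dat s).step c := rfl
    have h2 := two_le_datM s
    have hent : ent (.push s c) =
      nx (L (ent s).1 (ent s).2 c.succ) (L (ent s).1 (ent s).2 c.castSucc) := rfl
    rw [hent]
    rw [h] at hK ⊢
    generalize (ent s).1 = f at ih ⊢
    generalize (ent s).2 = g at ih ⊢
    generalize dat s = d at ih hK h2 ⊢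
    obtain ⟨l, mu, n, w, M, el, er, lam⟩ := d
    simp only at h2
    have hM : ((M : ℕ) : ℤ) ≤ (((Dat.step ⟨l, mu, n, w, M, el, er, lam⟩ c).M : ℕ) : ℤ) := by
      cases l <;> fin_cases c <;> simp [Dat.step]
    have hn0 : (0 : ℤ) ≤ n := Int.natCast_nonneg n
    have hnM : ((n : ℕ) : ℤ) ≤ M := by exact_mod_cast h2.2
    have h2M : (2 : ℤ) ≤ M := by exact_mod_cast h2.1
    have hK1 : (M : ℤ) + 2 ≤ K := le_trans (by linarith) hK
    have ih' := ih hK1
    cases l with
    | true =>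
      have ihL : EL K f g mu w n lam := ih'
      fin_cases c
      · have := (ihL.right hn0 (by linarith)).nx (by norm_num) (by linarith)
        show ER K _ _ ((mu + 2 : ℕ) : ℤ) ((w + n : ℕ) : ℤ) ((2 : ℕ) : ℤ) lam
        push_cast
        convert this using 1 <;> ring
      · have hK2 : ((n : ℤ) + 2) + 2 ≤ K := by
          have : (((max M (n + 2) : ℕ)) : ℤ) + 2 ≤ K := hK
          have h3 : (((n + 2 : ℕ)) : ℤ) ≤ ((max M (n + 2) : ℕ) : ℤ) := by
            exact_mod_cast le_max_right _ _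
          push_cast at h3 this ⊢
          linarith
        have := (ihL.nx hn0 (by linarith)).nx (by linarith) (by linarith)
        show EL K _ _ ((mu + 2 : ℕ) : ℤ) (w : ℤ) ((n + 2 : ℕ) : ℤ) (lam - 2)
        have e1 : ((mu + 2 : ℕ) : ℤ) = (mu : ℤ) + 1 + 1 := by push_cast; ring
        have e2 : ((n + 2 : ℕ) : ℤ) = (n : ℤ) + 1 + 1 := by push_cast; ring
        have e3 : lam - 2 = lam - 1 - 1 := by ring
        rw [e1, e2, e3]
        exact this
      · have := (ihL.left hn0 (by linarith)).nx le_rfl (by linarith)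
        show EL K _ _ ((mu + 1 : ℕ) : ℤ) (w : ℤ) ((1 : ℕ) : ℤ) (lam - 2)
        push_cast
        convert this using 1 <;> ring
    | false =>
      have ihR : ER K f g mu w n lam := ih'
      fin_cases c
      · have := (ihR.right hn0 (by linarith)).nx le_rfl (by linarith)
        show ER K _ _ ((mu + 1 : ℕ) : ℤ) (w : ℤ) ((1 : ℕ) : ℤ) lam
        push_cast
        convert this using 1 <;> ring
      · have hK2 : ((n : ℤ) + 2) + 2 ≤ K := by
          have : (((max M (n + 2) : ℕ)) : ℤ) + 2 ≤ K := hK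
          have h3 : (((n + 2 : ℕ)) : ℤ) ≤ ((max M (n + 2) : ℕ) : ℤ) := by
            exact_mod_cast le_max_right _ _
          push_cast at h3 this ⊢
          linarith
        have := (ihR.nx hn0 (by linarith)).nx (by linarith) (by linarith)
        show ER K _ _ ((mu + 2 : ℕ) : ℤ) (w : ℤ) ((n + 2 : ℕ) : ℤ) lam
        have e1 : ((mu + 2 : ℕ) : ℤ) = (mu : ℤ) + 1 + 1 := by push_cast; ring
        have e2 : ((n + 2 : ℕ) : ℤ) = (n : ℤ) + 1 + 1 := by push_cast; ring
        rw [e1, e2]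
        exact this
      · have := (ihR.left hn0 (by linarith)).nx (by norm_num) (by linarith)
        show EL K _ _ ((mu + 2 : ℕ) : ℤ) ((w + n : ℕ) : ℤ) ((2 : ℕ) : ℤ) (lam - n - 2)
        push_cast
        convert this using 1 <;> ring

end Pool.Agent.GrowthOR
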