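import Pool.Agent.GrowthOR.Estimate

set_option autoImplicit false

/-!
# Growth of order `s⁻¹ log s⁻¹` is not algebraic
-/

namespace Pool.Agent.GrowthOR

open Polynomial Filter Topology

theorem tendsto_ratio (d j j0 A B : ℕ) (hj : j ≤ d) (hAB : A ≤ B) (h : A = B → j < j0) :
    Tendsto (fun k : ℕ => (k : ℝ) ^ j / (k : ℝ) ^ j0 * ((2 ^ A / 2 ^ B : ℝ)) ^ k) atTop (𝓝 0) := by
  have h1 : Tendsto (fun k : ℕ => (k : ℝ) ^ d * (1 / 2 : ℝ) ^ k + 1 / (k : ℝ)) atTop (𝓝 0) := by
    have h2 := tendsto_pow_const_mul_const_pow_of_abs_lt_one d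
      (r := (1 / 2 : ℝ)) (by rw [abs_of_pos] <;> norm_num)
    have h3 := tendsto_one_div_atTop_nhds_zero_nat (𝕜 := ℝ)
    simpa using h2.add h3
  refine squeeze_zero' ?_ ?_ h1
  · exact Filter.Eventually.of_forall fun k => by positivity
  · filter_upwards [eventually_ge_atTop 1] with k hk
    have hk1 : (1 : ℝ) ≤ k := by exact_mod_cast hk
    have hk0 : (0 : ℝ) < k := by linarith
    rcases hAB.lt_or_eq with hlt | heq
    · have e1 : (2 ^ A / 2 ^ B : ℝ) ≤ 1 / 2 := by
        rw [div_le_div_iff₀ (by positivity) (by norm_num)]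
        have : (2 : ℝ) ^ (A + 1) ≤ 2 ^ B := pow_le_pow_right₀ (by norm_num) hlt
        rw [pow_succ] at this
        linarith
      have e2 : ((2 ^ A / 2 ^ B : ℝ)) ^ k ≤ (1 / 2) ^ k := pow_le_pow_left₀ (by positivity) e1 k
      have e3 : (k : ℝ) ^ j / (k : ℝ) ^ j0 ≤ (k : ℝ) ^ d := by
        rw [div_le_iff₀ (by positivity)]
        calc (k : ℝ) ^ j ≤ (k : ℝ) ^ d := pow_le_pow_right₀ hk1 hj
          _ = (k : ℝ) ^ d * 1 := by ring
          _ ≤ (k : ℝ) ^ d * (k : ℝ) ^ j0 :=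
              mul_le_mul_of_nonneg_left (one_le_pow₀ hk1) (by positivity)
      have e4 : (k : ℝ) ^ j / (k : ℝ) ^ j0 * ((2 ^ A / 2 ^ B : ℝ)) ^ k ≤
          (k : ℝ) ^ d * (1 / 2) ^ k := mul_le_mul e3 e2 (by positivity) (by positivity)
      have e5 : (0 : ℝ) ≤ 1 / (k : ℝ) := by positivity
      linarith
    · subst heq
      have hj0 := h rfl
      rw [div_self (by positivity), one_pow, mul_one]
      have e3 : (k : ℝ) ^ j / (k : ℝ) ^ j0 ≤ 1 / k := by
        rw [div_le_div_iff₀ (by positivity) hk0, one_mul]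
        calc (k : ℝ) ^ j * k = (k : ℝ) ^ (j + 1) := by ring
          _ ≤ (k : ℝ) ^ j0 := pow_le_pow_right₀ hk1 hj0
      have e5 : (0 : ℝ) ≤ (k : ℝ) ^ d * (1 / 2) ^ k := by positivity
      linarith

theorem no_relation (Q : ℝ[X][X]) (hQ : Q ≠ 0) (η : ℕ → ℝ) (c1 c2 : ℝ) (hc1 : 0 < c1)
    (k0 : ℕ) (h : ∀ k, k0 ≤ k → c1 * (k * 2 ^ k) ≤ η k ∧ η k ≤ c2 * (k * 2 ^ k))
    (hz : ∀ k, k0 ≤ k →
      ∑ j ∈ Finset.range (Q.natDegree + 1), (Q.coeff j).eval (zk k) * η k ^ j = 0) : False := by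
  classical
  set d := Q.natDegree with hd
  -- factorisation of the coefficients
  have hfac : ∀ j : ℕ, ∃ (m : ℕ) (r : ℕ → ℝ) (lim : ℝ), Q.coeff j ≠ 0 →
      (lim ≠ 0 ∧ Tendsto r atTop (𝓝 lim) ∧
        ∀ k, (Q.coeff j).eval (zk k) = (1 / 2 : ℝ) ^ (k * m) * r k) := by
    intro j
    by_cases hj : Q.coeff j = 0
    · exact ⟨0, fun _ => 0, 0, fun h => absurd hj h⟩
    · obtain ⟨q, hq1, hq2⟩ :=
        Polynomial.exists_eq_pow_rootMultiplicity_mul_and_not_dvd (Q.coeff j) hj (1 / 2 : ℝ)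
      set m := rootMultiplicity (1 / 2 : ℝ) (Q.coeff j)
      have hq3 : q.eval (1 / 2 : ℝ) ≠ 0 := fun h0 => hq2 (dvd_iff_isRoot.2 h0)
      refine ⟨m, fun k => (-1) ^ m * q.eval (zk k), (-1) ^ m * q.eval (1 / 2 : ℝ), fun _ =>
        ⟨mul_ne_zero (pow_ne_zero _ (by norm_num)) hq3, ?_, ?_⟩⟩
      · apply Tendsto.const_mul
        have h1 : Tendsto zk atTop (𝓝 (1 / 2)) := by
          have := tendsto_pow_atTop_nhds_zero_of_lt_one (r := (1 / 2 : ℝ)) (by norm_num)
            (by norm_num)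
          have h2 := this.const_sub (1 / 2)
          rw [sub_zero] at h2
          exact h2
        exact (q.continuous.tendsto (1 / 2)).comp h1
      · intro k
        rw [hq1, eval_mul, eval_pow, eval_sub, eval_X, eval_C]
        have : zk k - 1 / 2 = (-1) * (1 / 2) ^ k := by unfold zk; ring
        rw [this, mul_pow, ← pow_mul]
        ring
  choose m r lim hm using hfac
  set S := (Finset.range (d + 1)).filter (fun j => Q.coeff j ≠ 0) with hS
  have hSne : S.Nonempty := by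
    refine ⟨d, ?_⟩
    rw [hS, Finset.mem_filter, Finset.mem_range]
    refine ⟨by omega, ?_⟩
    rw [hd]
    exact fun h0 => hQ (leadingCoeff_eq_zero.1 h0)
  obtain ⟨j0, hj0S, hmax⟩ :=
    Finset.exists_max_image S (fun j => ((j : ℤ) - m j) * (d + 1) + j) hSne
  have hmem : ∀ j ∈ S, j ≤ d ∧ Q.coeff j ≠ 0 := by
    intro j hj
    rw [hS, Finset.mem_filter, Finset.mem_range] at hj
    exact ⟨by omega, hj.2⟩
  obtain ⟨hj0d, hj0ne⟩ := hmem j0 hj0S
  have hcmp : ∀ j ∈ S, j + m j0 ≤ j0 + m j ∧ (j + m j0 = j0 + m j → j ≤ j0) := by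
    intro j hj
    have h1 := hmax j hj
    have hjd := (hmem j hj).1
    constructor
    · by_contra hcon
      have h2 : ((j0 : ℤ) - m j0) + 1 ≤ (j : ℤ) - m j := by omega
      have h3 : (((j0 : ℤ) - m j0) + 1) * (d + 1) ≤ ((j : ℤ) - m j) * (d + 1) :=
        mul_le_mul_of_nonneg_right h2 (by positivity)
      have h4 : (j0 : ℤ) ≤ d := by exact_mod_cast hj0d
      have h5 : (0 : ℤ) ≤ j := by positivity
      nlinarith
    · intro he
      have h2 : ((j0 : ℤ) - m j0) = (j : ℤ) - m j := by omega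
      rw [h2] at h1
      have : (j : ℤ) ≤ j0 := by linarith
      exact_mod_cast this
  -- the sum over S
  have hsum : ∀ k, k0 ≤ k → ∑ j ∈ S, (Q.coeff j).eval (zk k) * η k ^ j = 0 := by
    intro k hk
    rw [← hz k hk, hS, Finset.sum_filter]
    apply Finset.sum_congr rfl
    intro j _
    by_cases hj : Q.coeff j = 0
    · simp [hj]
    · simp [hj]
  set θ : ℕ → ℝ := fun k => η k / (k * 2 ^ k) with hθ
  have hθb : ∀ k, k0 ≤ k → 1 ≤ k → c1 ≤ θ k ∧ θ k ≤ c2 ∧ η k = k * 2 ^ k * θ k := by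
    intro k hk hk1
    have hk1' : (0 : ℝ) < k := by exact_mod_cast hk1
    have hpos : (0 : ℝ) < k * 2 ^ k := by positivity
    obtain ⟨h1, h2⟩ := h k hk
    refine ⟨?_, ?_, ?_⟩
    · simp only [hθ]; rw [le_div_iff₀ hpos]; exact h1
    · simp only [hθ]; rw [div_le_iff₀ hpos]; exact h2
    · simp only [hθ]; field_simp
  -- normalised terms
  set T : ℕ → ℕ → ℝ := fun j k => r j k * (θ k ^ j *
    ((k : ℝ) ^ j / (k : ℝ) ^ j0 * ((2 ^ (j + m j0) / 2 ^ (j0 + m j) : ℝ)) ^ k)) with hT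
  have hTlim : ∀ j ∈ S.erase j0, Tendsto (T j) atTop (𝓝 0) := by
    intro j hj
    rw [Finset.mem_erase] at hj
    obtain ⟨hjne, hjS⟩ := hj
    obtain ⟨hjd, hjc⟩ := hmem j hjS
    obtain ⟨-, h2, -⟩ := hm j hjc
    obtain ⟨h3, h4⟩ := hcmp j hjS
    have h5 := tendsto_ratio d j j0 (j + m j0) (j0 + m j) hjd h3
      (fun he => lt_of_le_of_ne (h4 he) hjne)
    have h6 : Tendsto (fun k : ℕ => θ k ^ j * ((k : ℝ) ^ j / (k : ℝ) ^ j0 *
        ((2 ^ (j + m j0) / 2 ^ (j0 + m j) : ℝ)) ^ k)) atTop (𝓝 0) := by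
      have h7 := h5.const_mul (c2 ^ j)
      rw [mul_zero] at h7
      refine squeeze_zero' ?_ ?_ h7
      · filter_upwards [eventually_ge_atTop (max k0 1)] with k hk
        have := (hθb k (le_of_max_le_left hk) (le_of_max_le_right hk)).1
        have hθ0 : 0 ≤ θ k := by linarith
        positivity
      · filter_upwards [eventually_ge_atTop (max k0 1)] with k hk
        obtain ⟨b1, b2, -⟩ := hθb k (le_of_max_le_left hk) (le_of_max_le_right hk)
        have hθ0 : 0 ≤ θ k := by linarith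
        apply mul_le_mul_of_nonneg_right _ (by positivity)
        exact pow_le_pow_left₀ hθ0 b2 j
    have h8 := h2.mul h6
    rw [mul_zero] at h8
    exact h8
  have hterm : ∀ j ∈ S, ∀ k, k0 ≤ k → 1 ≤ k → (Q.coeff j).eval (zk k) * η k ^ j =
      T j k * ((k : ℝ) ^ j0 * 2 ^ (k * j0) / 2 ^ (k * m j0)) := by
    intro j hj k hk hk1
    obtain ⟨hjd, hjc⟩ := hmem j hj
    obtain ⟨-, -, h3⟩ := hm j hjc
    obtain ⟨-, -, b3⟩ := hθb k hk hk1
    have hk1' : (0 : ℝ) < k := by exact_mod_cast hk1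
    rw [h3 k, b3]
    simp only [hT]
    have e0 : ((2 ^ (j + m j0) / 2 ^ (j0 + m j) : ℝ)) ^ k =
        2 ^ ((j + m j0) * k) / 2 ^ ((j0 + m j) * k) := by rw [div_pow, ← pow_mul, ← pow_mul]
    rw [e0]
    have e1 : (1 / 2 : ℝ) ^ (k * m j) = 1 / 2 ^ (k * m j) := by rw [one_div_pow]
    have e2 : (2 : ℝ) ^ ((j + m j0) * k) = 2 ^ (k * j) * 2 ^ (k * m j0) := by
      rw [← pow_add]; congr 1; ring
    have e3 : (2 : ℝ) ^ ((j0 + m j) * k) = 2 ^ (k * j0) * 2 ^ (k * m j) := by
      rw [← pow_add]; congr 1; ring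
    rw [e1, e2, e3, mul_pow, mul_pow, ← pow_mul]
    field_simp
  -- the sum of the normalised terms vanishes
  have hsumT : ∀ᶠ k in atTop, T j0 k = - ∑ j ∈ S.erase j0, T j k := by
    filter_upwards [eventually_ge_atTop (max k0 1)] with k hk
    have hk0 := le_of_max_le_left hk
    have hk1 := le_of_max_le_right hk
    have h1 := hsum k hk0
    rw [Finset.sum_congr rfl (fun j hj => hterm j hj k hk0 hk1), ← Finset.sum_mul] at h1
    have hk1' : (0 : ℝ) < k := by exact_mod_cast hk1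
    have h2 : ((k : ℝ) ^ j0 * 2 ^ (k * j0) / 2 ^ (k * m j0)) ≠ 0 := by positivity
    have h3 := (mul_eq_zero.1 h1).resolve_right h2
    rw [← Finset.add_sum_erase S (fun j => T j k) hj0S] at h3
    linarith
  have hlim0 : Tendsto (T j0) atTop (𝓝 0) := by
    have h1 : Tendsto (fun k => - ∑ j ∈ S.erase j0, T j k) atTop (𝓝 0) := by
      have := (tendsto_finsetSum (S.erase j0) hTlim).neg
      simpa using this
    exact h1.congr' (hsumT.mono fun k hk => hk.symm)
  obtain ⟨hl0, hl1, -⟩ := hm j0 hj0ne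
  have hfin : Tendsto (fun k => |r j0 k| * c1 ^ j0) atTop (𝓝 0) := by
    have habs : Tendsto (fun k => |T j0 k|) atTop (𝓝 0) := by
      have := hlim0.abs
      simpa using this
    refine squeeze_zero' ?_ ?_ habs
    · exact Filter.Eventually.of_forall fun k => by positivity
    · filter_upwards [eventually_ge_atTop (max k0 1)] with k hk
      have hk0 := le_of_max_le_left hk
      have hk1 := le_of_max_le_right hk
      obtain ⟨b1, b2, -⟩ := hθb k hk0 hk1
      have hk1' : (0 : ℝ) < k := by exact_mod_cast hk1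
      simp only [hT]
      rw [div_self (by positivity), div_self (by positivity), one_pow, mul_one, mul_one,
        abs_mul]
      apply mul_le_mul_of_nonneg_left _ (abs_nonneg _)
      have hθ0 : 0 ≤ θ k := by linarith
      rw [abs_of_nonneg (by positivity)]
      exact pow_le_pow_left₀ hc1.le b1 j0
  have hfin2 : Tendsto (fun k => |r j0 k| * c1 ^ j0) atTop (𝓝 (|lim j0| * c1 ^ j0)) :=
    (hl1.abs).mul_const _
  have := tendsto_nhds_unique hfin hfin2
  have h5 : 0 < |lim j0| * c1 ^ j0 := by positivity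
  linarith

/-! ### evaluation of power series -/

/-- `f` converges absolutely at `z` with value `v` -/
def HasVal (z : ℝ) (f : PowerSeries ℚ) (v : ℝ) : Prop :=
  Summable (fun n => ‖((PowerSeries.coeff n f : ℚ) : ℝ) * z ^ n‖) ∧
    ∑' n, ((PowerSeries.coeff n f : ℚ) : ℝ) * z ^ n = v

theorem HasVal.add {z v w : ℝ} {f g : PowerSeries ℚ} (hf : HasVal z f v) (hg : HasVal z g w) :
    HasVal z (f + g) (v + w) := by
  have h1 : ∀ n, ((PowerSeries.coeff n (f + g) : ℚ) : ℝ) * z ^ n =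
      ((PowerSeries.coeff n f : ℚ) : ℝ) * z ^ n + ((PowerSeries.coeff n g : ℚ) : ℝ) * z ^ n := by
    intro n; rw [map_add]; push_cast; ring
  constructor
  · refine Summable.of_nonneg_of_le (fun n => norm_nonneg _) (fun n => ?_) (hf.1.add hg.1)
    rw [h1]; exact norm_add_le _ _
  · simp only [h1]
    rw [hf.1.of_norm.tsum_add hg.1.of_norm, hf.2, hg.2]

theorem HasVal.mul {z v w : ℝ} {f g : PowerSeries ℚ} (hf : HasVal z f v) (hg : HasVal z g w) :
    HasVal z (f * g) (v * w) := by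
  have h1 : ∀ n, ((PowerSeries.coeff n (f * g) : ℚ) : ℝ) * z ^ n =
      ∑ kl ∈ Finset.HasAntidiagonal.antidiagonal n, (((PowerSeries.coeff kl.1 f : ℚ) : ℝ) * z ^ kl.1) *
        (((PowerSeries.coeff kl.2 g : ℚ) : ℝ) * z ^ kl.2) := by
    intro n
    rw [PowerSeries.coeff_mul]
    push_cast
    rw [Finset.sum_mul]
    apply Finset.sum_congr rfl
    intro kl hkl
    rw [Finset.HasAntidiagonal.mem_antidiagonal] at hkl
    rw [← hkl, pow_add]
    ring
  have h2 := summable_norm_sum_mul_antidiagonal_of_summable_norm hf.1 hg.1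
  have h3 := tsum_mul_tsum_eq_tsum_sum_antidiagonal_of_summable_norm hf.1 hg.1
  constructor
  · refine h2.congr (fun n => ?_)
    rw [h1 n]
  · rw [tsum_congr h1, ← h3, hf.2, hg.2]

theorem HasVal.coe (z : ℝ) (p : ℚ[X]) :
    HasVal z (p : PowerSeries ℚ) ((p.map (algebraMap ℚ ℝ)).eval z) := by
  have h0 : ∀ n, n ∉ Finset.range (p.natDegree + 1) →
      ((PowerSeries.coeff n (p : PowerSeries ℚ) : ℚ) : ℝ) * z ^ n = 0 := by
    intro n hn
    rw [Finset.mem_range, not_lt] at hn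
    rw [Polynomial.coeff_coe, Polynomial.coeff_eq_zero_of_natDegree_lt (by omega)]
    simp
  constructor
  · apply summable_of_ne_finset_zero (s := Finset.range (p.natDegree + 1))
    intro n hn
    rw [h0 n hn, norm_zero]
  · rw [tsum_eq_sum h0, Polynomial.eval_map, Polynomial.eval₂_eq_sum_range]
    apply Finset.sum_congr rfl
    intro n _
    rw [Polynomial.coeff_coe]
    rfl

theorem HasVal.pow {z v : ℝ} {f : PowerSeries ℚ} (hf : HasVal z f v) (n : ℕ) :
    HasVal z (f ^ n) (v ^ n) := by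
  induction n with
  | zero =>
    have := HasVal.coe z (1 : ℚ[X])
    simpa using this
  | succ n ih =>
    rw [pow_succ, pow_succ]
    exact ih.mul hf

theorem HasVal.sum {z : ℝ} (s : Finset ℕ) (f : ℕ → PowerSeries ℚ) (v : ℕ → ℝ)
    (h : ∀ i ∈ s, HasVal z (f i) (v i)) : HasVal z (∑ i ∈ s, f i) (∑ i ∈ s, v i) := by
  classical
  induction s using Finset.induction_on with
  | empty =>
    have := HasVal.coe z (0 : ℚ[X])
    simpa using this
  | insert a s ha ih =>
    rw [Finset.sum_insert ha, Finset.sum_insert ha]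
    exact (h a (Finset.mem_insert_self a s)).add
      (ih fun i hi => h i (Finset.mem_insert_of_mem hi))

theorem HasVal.eval₂ {z v : ℝ} {f : PowerSeries ℚ} (hf : HasVal z f v) (P : ℚ[X][X]) :
    HasVal z (Polynomial.eval₂ (Polynomial.coeToPowerSeries.ringHom) f P)
      (∑ i ∈ Finset.range (P.natDegree + 1),
        ((P.coeff i).map (algebraMap ℚ ℝ)).eval z * v ^ i) := by
  rw [Polynomial.eval₂_eq_sum_range]
  apply HasVal.sum
  intro i _
  exact (HasVal.coe z (P.coeff i)).mul (hf.pow i)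

theorem HasVal.zero_unique {z v : ℝ} (h : HasVal z 0 v) : v = 0 := by
  rw [← h.2]
  simp

end Pool.Agent.GrowthOR
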